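import Pool.Agent.Lib.MP_3e612f_nt.ZE.A.Law

/-! Entropy of long windows given a residue. -/

set_option autoImplicit false

namespace Pool.Agent.Lib.MP_3e612f_nt.ZE

open Finset MeasureTheory Filter Topology

private theorem Blocks_pair (V : Ultrafilter ℕ) (hV : (V : Filter ℕ) ≤ atTop) (L' Q : ℕ)
    [NeZero Q] (k : ℕ) : ∀ K : ℕ, K = k * L' →
      ent (law V (fun n => (win K n, (n : ZMod Q)))) ≤ ent (law V (fun n => (n : ZMod Q))) +
        k * (ent (law V (fun n => (win L' n, (n : ZMod Q)))) -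
          ent (law V (fun n => (n : ZMod Q)))) := by
  induction k with
  | zero =>
    rintro K hK
    rw [zero_mul] at hK
    subst hK
    have h1 := ent_law_inj V (fun n => (n : ZMod Q))
      (fun r : ZMod Q => ((fun i : Fin 0 => i.elim0 : Fin 0 → SignType), r))
      (fun r r' h => (Prod.mk.inj h).2)
    have h2 : (fun n : ℕ => (win 0 n, (n : ZMod Q))) =
        fun n : ℕ => ((fun i : Fin 0 => i.elim0 : Fin 0 → SignType), (n : ZMod Q)) := by
      funext n
      have h3 : win 0 n = (fun i : Fin 0 => i.elim0 : Fin 0 → SignType) :=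
        funext fun i => i.elim0
      rw [h3]
    rw [h2, h1, Nat.cast_zero, zero_mul, add_zero]
  | succ k ih =>
    rintro K hK
    obtain ⟨K0, hK0⟩ : ∃ K0, K0 = k * L' := ⟨_, rfl⟩
    have hK1 : K = K0 + L' := by rw [hK, hK0]; ring
    subst hK1
    have hk := ih K0 hK0
    have h1 := ent_law_inj V (fun n : ℕ => (win (K0 + L') n, (n : ZMod Q)))
      (fun q : (Fin (K0 + L') → SignType) × ZMod Q =>
        ((fun i : Fin K0 => q.1 (Fin.castAdd L' i)), (fun j : Fin L' => q.1 (Fin.natAdd K0 j)), q.2))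
      (by
        rintro ⟨a, r⟩ ⟨b, r'⟩ h
        obtain ⟨h2, h3⟩ := Prod.mk.inj h
        obtain ⟨h4, h5⟩ := Prod.mk.inj h3
        have h6 : a = b := by
          funext i
          refine Fin.addCases (fun i => ?_) (fun j => ?_) i
          · exact congrFun h2 i
          · exact congrFun h4 j
        rw [h6]
        exact congrArg (Prod.mk b) h5)
    have h2 : (fun n : ℕ => ((fun i : Fin K0 => win (K0 + L') n (Fin.castAdd L' i)),
        (fun j : Fin L' => win (K0 + L') n (Fin.natAdd K0 j)), (n : ZMod Q))) =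
        fun n : ℕ => (win K0 n, win L' (n + K0), (n : ZMod Q)) := by
      funext n
      refine Prod.ext ?_ (Prod.ext ?_ rfl)
      · funext i
        rfl
      · funext j
        change xs (n + (K0 + (j : ℕ))) = xs (n + K0 + (j : ℕ))
        rw [add_assoc]
    have h3 := ent_law_ssa V (win K0) (fun n => win L' (n + K0)) (fun n => (n : ZMod Q))
    have h4 := ent_law_inj V (fun n : ℕ => (win L' (n + K0), ((n + K0 : ℕ) : ZMod Q)))
      (fun q : (Fin L' → SignType) × ZMod Q => (q.1, q.2 - (K0 : ZMod Q)))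
      (by
        rintro ⟨a, r⟩ ⟨b, r'⟩ h
        obtain ⟨h5, h6⟩ := Prod.mk.inj h
        have h7 : r = r' := sub_left_injective h6
        rw [h7]
        exact congrArg (fun c => (c, r')) h5)
    have h5 : (fun n : ℕ => (win L' (n + K0), ((n + K0 : ℕ) : ZMod Q) - (K0 : ZMod Q))) =
        fun n : ℕ => (win L' (n + K0), (n : ZMod Q)) := by
      funext n
      rw [Nat.cast_add, add_sub_cancel_right]
    have h6 := law_shift V hV (fun n : ℕ => (win L' n, (n : ZMod Q))) K0
    have h7 : ent (law V (fun n : ℕ => (win L' (n + K0), (n : ZMod Q)))) =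
        ent (law V (fun n : ℕ => (win L' n, (n : ZMod Q)))) := by
      rw [← h5, ← h6]
      exact h4
    have h8 : ent (law V (fun n : ℕ => (win K0 n, win L' (n + K0), (n : ZMod Q)))) =
        ent (law V (fun n : ℕ => (win (K0 + L') n, (n : ZMod Q)))) := by
      rw [← h2]
      exact h1
    rw [h7, h8] at h3
    rw [Nat.cast_succ]
    linarith

/-- (A4) `H(win (kL'), R) ≤ H(R) + k (H(win L', R) - H(R))`, `R = n mod Q`, by induction on `k`: `(win ((k+1)L') n, R n)` is an injective image of `(win (kL') n, win L' (n + kL'), R n)` and conversely (`ent_law_inj` for the map (a, b, r) ↦ (append, r)),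
strong subadditivity, and `(win L' (n + kL'), R n)` is an injective image of `(win L' n', R n')`, `n' = n + kL'` (`R n = R n' - kL'`), `law_shift`. Then `ent_law_le_pair`. -/
theorem ent_blocks (V : Ultrafilter ℕ) (hV : (V : Filter ℕ) ≤ atTop) (L' k Q : ℕ) [NeZero Q] :
    ent (law V (win (k * L'))) ≤ ent (law V (fun n => (n : ZMod Q))) +
      k * (ent (law V (fun n => (win L' n, (n : ZMod Q)))) - ent (law V (fun n => (n : ZMod Q)))) := by
  exact (ent_law_le_pair V (win (k * L')) (fun n => (n : ZMod Q))).trans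
    (Blocks_pair V hV L' Q k (k * L') rfl)

/-- `ent (law V (win K)) ≤ K log 3` -/
theorem ent_win_le (V : Ultrafilter ℕ) (hV : (V : Filter ℕ) ≤ atTop) (K : ℕ) : ent (law V (win K)) ≤ K * Real.log 3 := by
  refine (ent_law_le_card V hV (win K)).trans (le_of_eq ?_)
  have h1 : Fintype.card SignType = 3 := rfl
  rw [Fintype.card_fun, h1, Fintype.card_fin, Nat.cast_pow, Real.log_pow]
  norm_num

private theorem Blocks_modq (V : Ultrafilter ℕ) (hV : (V : Filter ℕ) ≤ atTop) (Q : ℕ) [NeZero Q]
    (r : ZMod Q) : law V (fun n => (n : ZMod Q)) r = 1 / (Q : ℝ) := by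
  classical
  have h1 := lam_mod V hV Q r.val (Nat.pos_of_ne_zero (NeZero.ne Q)) r.val_lt
  rw [← h1]
  unfold law
  congr 1
  funext n
  have h2 : ((n : ZMod Q) = r) ↔ n % Q = r.val := by
    constructor
    · rintro rfl
      rw [ZMod.val_natCast]
    · intro h
      rw [← ZMod.natCast_mod, h, ZMod.natCast_zmod_val]
  by_cases h3 : n % Q = r.val
  · rw [if_pos h3, if_pos (h2.2 h3)]
  · rw [if_neg h3, if_neg (fun h => h3 (h2.1 h))]

/-- `R = n mod Q` is uniform: its entropy is `log Q` (`lam_mod`) -/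
theorem ent_mod (V : Ultrafilter ℕ) (hV : (V : Filter ℕ) ≤ atTop) (Q : ℕ) [NeZero Q] : ent (law V (fun n => (n : ZMod Q))) = Real.log Q := by
  unfold ent
  rw [Finset.sum_congr rfl fun r _ => by rw [Blocks_modq V hV Q r], Finset.sum_const,
    Finset.card_univ, ZMod.card, nsmul_eq_mul, Real.negMulLog, one_div, Real.log_inv]
  have hQ : (Q : ℝ) ≠ 0 := Nat.cast_ne_zero.2 (NeZero.ne Q)
  field_simp

theorem law_modq (V : Ultrafilter ℕ) (hV : (V : Filter ℕ) ≤ atTop) (Q : ℕ) [NeZero Q] (r : ZMod Q) : law V (fun n => (n : ZMod Q)) r = 1 / (Q : ℝ) := by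
  exact Blocks_modq V hV Q r

end Pool.Agent.Lib.MP_3e612f_nt.ZE
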