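import Pool.Agent.Lib.MP_3e612f_nt.ZE.Defs

/-! Exponential moments of sums over independent residues. -/

set_option autoImplicit false

namespace Pool.Agent.Lib.MP_3e612f_nt.ZE

open Finset MeasureTheory Filter Topology

private theorem expo_crt_two (q M : ℕ) (hq : q ≠ 0) (hM : M ≠ 0) (hc : Nat.Coprime q M)
    (G F : ℕ → ℝ) :
    ∑ r ∈ range (q * M), G (r % q) * F (r % M) = (∑ a ∈ range q, G a) * ∑ s ∈ range M, F s := by
  rw [Finset.sum_mul_sum, ← Finset.sum_product']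
  refine Finset.sum_bij (fun r _ => (r % q, r % M)) ?_ ?_ ?_ ?_
  · intro r _
    rw [Finset.mem_product, Finset.mem_range, Finset.mem_range]
    exact ⟨Nat.mod_lt _ (Nat.pos_of_ne_zero hq), Nat.mod_lt _ (Nat.pos_of_ne_zero hM)⟩
  · intro r hr r' hr' h
    rw [Prod.mk.injEq] at h
    have h1 : r ≡ r' [MOD q * M] := (Nat.modEq_and_modEq_iff_modEq_mul hc).1 ⟨h.1, h.2⟩
    exact Nat.ModEq.eq_of_lt_of_lt h1 (Finset.mem_range.1 hr) (Finset.mem_range.1 hr')
  · rintro ⟨a, b⟩ hab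
    rw [Finset.mem_product, Finset.mem_range, Finset.mem_range] at hab
    refine ⟨(Nat.chineseRemainder hc a b : ℕ),
      Finset.mem_range.2 (Nat.chineseRemainder_lt_mul hc a b hq hM), ?_⟩
    have h1 := (Nat.chineseRemainder hc a b).2
    have h2 : (Nat.chineseRemainder hc a b : ℕ) % q = a := by
      rw [h1.1, Nat.mod_eq_of_lt hab.1]
    have h3 : (Nat.chineseRemainder hc a b : ℕ) % M = b := by
      rw [h1.2, Nat.mod_eq_of_lt hab.2]
    rw [Prod.mk.injEq]
    exact ⟨h2, h3⟩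
  · intro r _
    rfl

/-- Chinese remainder theorem, by induction on `S` -/
theorem crt_sum (S : Finset ℕ) (hS : ∀ p ∈ S, p.Prime) (g : ℕ → ℕ → ℝ) :
    ∑ r ∈ range (∏ p ∈ S, p), ∏ p ∈ S, g p (r % p) = ∏ p ∈ S, ∑ r ∈ range p, g p r := by
  classical
  induction S using Finset.induction_on with
  | empty => simp
  | insert q S hq ih =>
    have hS' : ∀ p ∈ S, p.Prime := fun p hp => hS p (Finset.mem_insert_of_mem hp)
    have hqp : q.Prime := hS q (Finset.mem_insert_self q S)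
    have hM : ∏ p ∈ S, p ≠ 0 := Finset.prod_ne_zero_iff.2 fun p hp => (hS' p hp).ne_zero
    have hc : Nat.Coprime q (∏ p ∈ S, p) := by
      refine Nat.Coprime.prod_right fun p hp => ?_
      refine (Nat.coprime_primes hqp (hS' p hp)).2 ?_
      rintro rfl
      exact hq hp
    rw [Finset.prod_insert hq, Finset.prod_insert hq, ← ih hS',
      ← expo_crt_two q (∏ p ∈ S, p) hqp.ne_zero hM hc (g q) (fun s => ∏ p ∈ S, g p (s % p))]
    refine Finset.sum_congr rfl fun r _ => ?_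
    rw [Finset.prod_insert hq]
    refine congrArg (fun x => g q (r % q) * x) (Finset.prod_congr rfl fun p hp => ?_)
    rw [Nat.mod_mod_of_dvd r (Finset.dvd_prod_of_mem (fun x => x) hp)]

private theorem expo_ineq (x : ℝ) : Real.exp x ≤ x + Real.exp (x ^ 2) := by
  have h1 : x ^ 2 + 1 ≤ Real.exp (x ^ 2) := Real.add_one_le_exp _
  rcases le_or_gt |x| 1 with h | h
  · have h2 := (abs_le.1 (Real.abs_exp_sub_one_sub_id_le h)).2
    linarith
  · rcases lt_abs.1 h with h2 | h2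
    · have h3 : Real.exp x ≤ Real.exp (x ^ 2) := Real.exp_le_exp.2 (by nlinarith)
      linarith
    · have h3 : Real.exp x ≤ 1 := Real.exp_le_one_iff.2 (by linarith)
      nlinarith

/-- `exp x ≤ x + exp (x²)`: for a function on `range p` with values in `[-3,3]` and sum 0 the average of `exp (t f)` is at most `exp (9 t²)` -/
theorem exp_avg (p : ℕ) (hp : 1 ≤ p) (f : ℕ → ℝ) (h3 : ∀ r, |f r| ≤ 3) (h0 : ∑ r ∈ range p, f r = 0) (t : ℝ) :
    ∑ r ∈ range p, Real.exp (t * f r) ≤ p * Real.exp (9 * t ^ 2) := by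
  have h1 : ∀ r ∈ range p, Real.exp (t * f r) ≤ t * f r + Real.exp (9 * t ^ 2) := by
    intro r _
    refine (expo_ineq (t * f r)).trans ?_
    have h2 : f r ^ 2 ≤ 9 := by
      have h4 := sq_le_sq' (neg_le_of_abs_le (h3 r)) (le_of_abs_le (h3 r))
      linarith
    have h5 : Real.exp ((t * f r) ^ 2) ≤ Real.exp (9 * t ^ 2) :=
      Real.exp_le_exp.2 (by nlinarith [sq_nonneg t])
    linarith
  refine (Finset.sum_le_sum h1).trans ?_
  rw [Finset.sum_add_distrib, ← Finset.mul_sum, h0, mul_zero, zero_add, Finset.sum_const,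
    Finset.card_range, nsmul_eq_mul]

theorem expo (S : Finset ℕ) (hS : ∀ p ∈ S, p.Prime) (hne : S.Nonempty) (f : ℕ → ℕ → ℝ) (h3 : ∀ p ∈ S, ∀ r, |f p r| ≤ 3) (h0 : ∀ p ∈ S, ∑ r ∈ range p, f p r = 0) (l : ℝ) :
    ∑ r ∈ range (∏ p ∈ S, p), Real.exp (l * ((∑ p ∈ S, f p (r % p)) / (S.card : ℝ))) ≤ (∏ p ∈ S, (p : ℝ)) * Real.exp (9 * l ^ 2 / S.card) := by
  have hc : (S.card : ℝ) ≠ 0 := Nat.cast_ne_zero.2 (Finset.card_ne_zero.2 hne)
  have h1 : ∀ r : ℕ, Real.exp (l * ((∑ p ∈ S, f p (r % p)) / (S.card : ℝ))) =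
      ∏ p ∈ S, Real.exp (l / S.card * f p (r % p)) := by
    intro r
    rw [← Real.exp_sum, ← Finset.mul_sum]
    congr 1
    ring
  rw [Finset.sum_congr rfl fun r _ => h1 r,
    crt_sum S hS (fun p r => Real.exp (l / S.card * f p r))]
  have h2 : ∏ p ∈ S, ∑ r ∈ range p, Real.exp (l / S.card * f p r) ≤
      ∏ p ∈ S, ((p : ℝ) * Real.exp (9 * (l / S.card) ^ 2)) := by
    refine Finset.prod_le_prod (fun p _ => Finset.sum_nonneg fun r _ => (Real.exp_pos _).le)
      fun p hp => ?_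
    exact exp_avg p (hS p hp).one_le (f p) (h3 p hp) (h0 p hp) _
  refine h2.trans (le_of_eq ?_)
  rw [Finset.prod_mul_distrib, Finset.prod_const, ← Real.exp_nat_mul]
  congr 2
  field_simp

end Pool.Agent.Lib.MP_3e612f_nt.ZE
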