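import Pool.Agent.Lib.MP_3e612f_nt.ZE.Defs

/-! The Gibbs variational inequality. -/

set_option autoImplicit false

namespace Pool.Agent.Lib.MP_3e612f_nt.ZE

open Finset MeasureTheory Filter Topology

/-- `q` a probability vector on `α × β` with marginals `q₁, q₂`, `W = ∑ q₁(a) q₂(b) exp(l G(a,b))`: `∑ q log(q₁ q₂ e^{lG}/(q W)) ≤ ∑ (q₁ q₂ e^{lG}/W) - 1 ≤ 0` (sum over `q > 0`, `log t ≤ t - 1`), and `∑ q log(q₁q₂/q) = -(H(q₁) + H(q₂) - H(q))`. -/
theorem gibbs {α β : Type} [Fintype α] [Fintype β] (q : α × β → ℝ) (h0 : ∀ a, 0 ≤ q a) (h1 : ∑ a, q a = 1) (G : α × β → ℝ) (l : ℝ) (hl : 0 < l) :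
    ∑ z, q z * G z ≤ ((ent (fun a => ∑ b, q (a, b)) + ent (fun b => ∑ a, q (a, b)) - ent q) +
      Real.log (∑ z : α × β, (∑ b, q (z.1, b)) * (∑ a, q (a, z.2)) * Real.exp (l * G z))) / l := by
  classical
  obtain ⟨q1, hq1⟩ : ∃ q1 : α → ℝ, ∀ a, q1 a = ∑ b, q (a, b) := ⟨_, fun a => rfl⟩
  obtain ⟨q2, hq2⟩ : ∃ q2 : β → ℝ, ∀ b, q2 b = ∑ a, q (a, b) := ⟨_, fun b => rfl⟩
  simp only [← hq1, ← hq2]
  have h10 : ∀ a, 0 ≤ q1 a := fun a => by rw [hq1]; exact Finset.sum_nonneg fun b _ => h0 _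
  have h20 : ∀ b, 0 ≤ q2 b := fun b => by rw [hq2]; exact Finset.sum_nonneg fun a _ => h0 _
  have hle1 : ∀ z : α × β, q z ≤ q1 z.1 := fun z => by
    rw [hq1]
    exact Finset.single_le_sum (f := fun b => q (z.1, b)) (fun b _ => h0 _) (Finset.mem_univ z.2)
  have hle2 : ∀ z : α × β, q z ≤ q2 z.2 := fun z => by
    rw [hq2]
    exact Finset.single_le_sum (f := fun a => q (a, z.2)) (fun a _ => h0 _) (Finset.mem_univ z.1)
  obtain ⟨z0, hz0⟩ : ∃ z, 0 < q z := by
    by_contra h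
    push Not at h
    have h2 : ∑ a, q a ≤ 0 := Finset.sum_nonpos fun a _ => h a
    rw [h1] at h2
    exact absurd h2 (by norm_num)
  obtain ⟨W, hW⟩ : ∃ W : ℝ, W = ∑ z : α × β, q1 z.1 * q2 z.2 * Real.exp (l * G z) := ⟨_, rfl⟩
  rw [← hW]
  have hnn : ∀ z : α × β, 0 ≤ q1 z.1 * q2 z.2 * Real.exp (l * G z) := fun z =>
    mul_nonneg (mul_nonneg (h10 _) (h20 _)) (Real.exp_pos _).le
  have hWpos : 0 < W := by
    rw [hW]
    refine lt_of_lt_of_le ?_ (Finset.single_le_sum (fun z _ => hnn z) (Finset.mem_univ z0))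
    exact mul_pos (mul_pos (hz0.trans_le (hle1 z0)) (hz0.trans_le (hle2 z0))) (Real.exp_pos _)
  have hpt : ∀ z : α × β, l * (q z * G z) + q z * Real.log (q1 z.1) + q z * Real.log (q2 z.2) -
      q z * Real.log (q z) - q z * Real.log W ≤
      q1 z.1 * q2 z.2 * Real.exp (l * G z) / W - q z := by
    intro z
    rcases (h0 z).eq_or_lt with h | h
    · rw [← h]
      have := div_nonneg (hnn z) hWpos.le
      linarith
    · have ha : 0 < q1 z.1 := h.trans_le (hle1 z)
      have hb : 0 < q2 z.2 := h.trans_le (hle2 z)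
      obtain ⟨t, ht⟩ : ∃ t : ℝ, t = q1 z.1 * q2 z.2 * Real.exp (l * G z) / (q z * W) := ⟨_, rfl⟩
      have htpos : 0 < t := by
        rw [ht]
        exact div_pos (mul_pos (mul_pos ha hb) (Real.exp_pos _)) (mul_pos h hWpos)
      have hlog : Real.log t = Real.log (q1 z.1) + Real.log (q2 z.2) + l * G z -
          (Real.log (q z) + Real.log W) := by
        rw [ht, Real.log_div (mul_pos (mul_pos ha hb) (Real.exp_pos _)).ne' (mul_pos h hWpos).ne',
          Real.log_mul (mul_pos ha hb).ne' (Real.exp_pos _).ne', Real.log_mul ha.ne' hb.ne',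
          Real.log_exp, Real.log_mul h.ne' hWpos.ne']
      have h3 := mul_le_mul_of_nonneg_left (Real.log_le_sub_one_of_pos htpos) h.le
      have h4 : q z * t = q1 z.1 * q2 z.2 * Real.exp (l * G z) / W := by
        rw [ht]
        field_simp
      rw [hlog] at h3
      rw [← h4]
      linarith
  have hs := Finset.sum_le_sum (fun z (_ : z ∈ (Finset.univ : Finset (α × β))) => hpt z)
  have e1 : ∑ z : α × β, q z * Real.log (q1 z.1) = - ent q1 := by
    rw [Fintype.sum_prod_type]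
    unfold ent
    rw [← Finset.sum_neg_distrib]
    refine Finset.sum_congr rfl fun a _ => ?_
    have e : ∑ b, q (a, b) * Real.log (q1 a) = q1 a * Real.log (q1 a) := by
      rw [← Finset.sum_mul, ← hq1]
    rw [Real.negMulLog, neg_mul, neg_neg]
    exact e
  have e2 : ∑ z : α × β, q z * Real.log (q2 z.2) = - ent q2 := by
    rw [Fintype.sum_prod_type_right]
    unfold ent
    rw [← Finset.sum_neg_distrib]
    refine Finset.sum_congr rfl fun b _ => ?_
    have e : ∑ a, q (a, b) * Real.log (q2 b) = q2 b * Real.log (q2 b) := by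
      rw [← Finset.sum_mul, ← hq2]
    rw [Real.negMulLog, neg_mul, neg_neg]
    exact e
  have e3 : ∑ z : α × β, q z * Real.log (q z) = - ent q := by
    unfold ent
    rw [← Finset.sum_neg_distrib]
    refine Finset.sum_congr rfl fun b _ => ?_
    rw [Real.negMulLog]
    ring
  rw [Finset.sum_sub_distrib, Finset.sum_sub_distrib, Finset.sum_sub_distrib,
    Finset.sum_add_distrib, Finset.sum_add_distrib, e1, e2, e3, ← Finset.sum_mul, h1,
    ← Finset.sum_div, ← hW, div_self hWpos.ne', ← Finset.mul_sum] at hs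
  have e4 : ent (fun a => q1 a) = ent q1 := rfl
  have e5 : ent (fun b => q2 b) = ent q2 := rfl
  rw [le_div_iff₀ hl]
  linarith

end Pool.Agent.Lib.MP_3e612f_nt.ZE
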