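import Pool.Agent.Lib.MP_3e612f_nt.ZE.A.ZLam
import Pool.Agent.Lib.MP_3e612f_nt.ZE.A.Blocks
import Pool.Agent.Lib.MP_3e612f_nt.ZE.A.Gibbs
import Pool.Agent.Lib.MP_3e612f_nt.ZE.A.Expo

/-! The difference in Tao's identity is bounded by the mutual information. -/

set_option autoImplicit false

namespace Pool.Agent.Lib.MP_3e612f_nt.ZE

open Finset MeasureTheory Filter Topology

/-- the product of the primes in `(P, 4P]` -/
def QQ (P : ℕ) : ℕ := ∏ p ∈ PP P, p

instance QQ_neZero (P : ℕ) : NeZero (QQ P) := ⟨Finset.prod_ne_zero_iff.2 fun _ hp => (Finset.mem_filter.1 hp).2.ne_zero⟩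

/-- the mutual information of the window of length `K` and the residue modulo `Q` -/
noncomputable def info (V : Ultrafilter ℕ) (K Q : ℕ) [NeZero Q] : ℝ :=
  ent (law V (win K)) + ent (law V (fun n => (n : ZMod Q))) - ent (law V (fun n => (win K n, (n : ZMod Q))))

/-- `gibbs` for the law of the window and the residue. -/
private theorem diff_gibbs (V : Ultrafilter ℕ) (hV : (V : Filter ℕ) ≤ atTop) (K Q : ℕ) [NeZero Q]
    (G : (Fin K → SignType) × ZMod Q → ℝ) (l : ℝ) (hl : 0 < l) :
    ∑ z, law V (fun n => (win K n, (n : ZMod Q))) z * G z ≤ (info V K Q +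
      Real.log (∑ z : (Fin K → SignType) × ZMod Q, law V (win K) z.1 *
        law V (fun n => (n : ZMod Q)) z.2 * Real.exp (l * G z))) / l := by
  have h := gibbs (law V (fun n => (win K n, (n : ZMod Q)))) (fun a => law_nonneg V _ a)
    (law_sum V hV _) G l hl
  have e1 : (fun a => ∑ b, law V (fun n => (win K n, (n : ZMod Q))) (a, b)) = law V (win K) :=
    funext fun a => law_fst V (win K) (fun n => (n : ZMod Q)) a
  have e2 : (fun b => ∑ a, law V (fun n => (win K n, (n : ZMod Q))) (a, b)) =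
      law V (fun n => (n : ZMod Q)) :=
    funext fun b => law_snd V (win K) (fun n => (n : ZMod Q)) b
  have e3 : (∑ z : (Fin K → SignType) × ZMod Q,
      (∑ b, law V (fun n => (win K n, (n : ZMod Q))) (z.1, b)) *
        (∑ a, law V (fun n => (win K n, (n : ZMod Q))) (a, z.2)) * Real.exp (l * G z)) =
      ∑ z : (Fin K → SignType) × ZMod Q, law V (win K) z.1 *
        law V (fun n => (n : ZMod Q)) z.2 * Real.exp (l * G z) :=
    Finset.sum_congr rfl fun z _ => by
      rw [law_fst V (win K) (fun n => (n : ZMod Q)) z.1,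
        law_snd V (win K) (fun n => (n : ZMod Q)) z.2]
  rw [e1, e2, e3] at h
  exact h

/-- `info ≥ 0` (strong subadditivity with a trivial third variable, or `gibbs` with `G = 0`) -/
theorem info_nonneg (V : Ultrafilter ℕ) (hV : (V : Filter ℕ) ≤ atTop) (K Q : ℕ) [NeZero Q] : 0 ≤ info V K Q := by
  have h := diff_gibbs V hV K Q (fun _ => 0) 1 one_pos
  have e1 : ∑ z, law V (fun n => (win K n, (n : ZMod Q))) z * (0 : ℝ) = 0 := by simp
  have e2 : (∑ z : (Fin K → SignType) × ZMod Q, law V (win K) z.1 *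
        law V (fun n => (n : ZMod Q)) z.2 * Real.exp (1 * (0 : ℝ))) = 1 := by
    rw [mul_zero, Real.exp_zero]
    simp only [mul_one]
    rw [Fintype.sum_prod_type, ← Finset.sum_mul_sum, law_sum V hV, law_sum V hV, one_mul]
  rw [e1, e2, Real.log_one, add_zero, div_one] at h
  exact h

/-- extension of a window by `0` -/
private def diffExt {K : ℕ} (x : Fin K → SignType) (i : ℕ) : ℤ :=
  if h : i < K then ((x ⟨i, h⟩ : SignType) : ℤ) else 0

private theorem diff_xs (n : ℕ) : ((xs n : SignType) : ℤ) = ArithmeticFunction.moebius n := by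
  unfold xs
  rcases ArithmeticFunction.moebius_eq_or n with h | h | h
  · rw [h]; simp
  · rw [h]; simp
  · rw [h]; simp

private theorem diff_ext_win {K n i : ℕ} (hi : i < K) :
    diffExt (win K n) i = ArithmeticFunction.moebius (n + i) := by
  unfold diffExt
  rw [dif_pos hi]
  exact diff_xs (n + i)

private theorem diff_pav (V : Ultrafilter ℕ) (P : ℕ) (F : ℕ → ℕ → ℝ) (C : ℝ)
    (h : ∀ p ∈ PP P, ∀ n, |F p n| ≤ C) :
    pav P (fun p => Lam V (F p)) = Lam V (fun n => pav P (fun p => F p n)) := by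
  unfold pav
  have e : (fun n => (∑ p ∈ PP P, F p n) / ((PP P).card : ℝ)) =
      fun n => (1 / ((PP P).card : ℝ)) * ∑ p ∈ PP P, F p n := by
    funext n
    ring
  rw [e, lam_smul V _ (fun n => ∑ p ∈ PP P, F p n) ((PP P).card * C), lam_sum V (PP P) F C h]
  · ring
  · intro n
    calc |∑ p ∈ PP P, F p n| ≤ ∑ p ∈ PP P, |F p n| := Finset.abs_sum_le_sum_abs _ _
      _ ≤ ∑ _p ∈ PP P, C := Finset.sum_le_sum fun p hp => h p hp n
      _ = (PP P).card * C := by rw [Finset.sum_const, nsmul_eq_mul]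

private theorem diff_log {W b : ℝ} (h0 : 0 ≤ W) (hb : 0 ≤ b) (h : W ≤ Real.exp b) :
    Real.log W ≤ b := by
  rcases h0.eq_or_lt with h1 | h1
  · rw [← h1, Real.log_zero]
    exact hb
  · exact (Real.log_le_iff_le_exp h1).2 h

/-- the exponential moment -/
private theorem diff_expo (V : Ultrafilter ℕ) (hV : (V : Filter ℕ) ≤ atTop) (K P : ℕ)
    (hne : (PP P).Nonempty) (f : (Fin K → SignType) → ℕ → ℕ → ℝ)
    (h3 : ∀ x, ∀ p ∈ PP P, ∀ r, |f x p r| ≤ 3)
    (h0 : ∀ x, ∀ p ∈ PP P, ∑ r ∈ range p, f x p r = 0)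
    (hm : ∀ x, ∀ p ∈ PP P, ∀ r, f x p (r % p) = f x p r) (l : ℝ) (hl : 0 < l) :
    ∑ z, law V (fun n => (win K n, (n : ZMod (QQ P)))) z * pav P (fun p => f z.1 p z.2.val) ≤
      (info V K (QQ P) + 9 * l ^ 2 / (PP P).card) / l := by
  refine (diff_gibbs V hV K (QQ P) (fun z => pav P (fun p => f z.1 p z.2.val)) l hl).trans ?_
  refine div_le_div_of_nonneg_right ?_ hl.le
  refine add_le_add le_rfl ?_
  have hQ : (0 : ℝ) < (QQ P : ℝ) := Nat.cast_pos.2 (Nat.pos_of_ne_zero (NeZero.ne (QQ P)))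
  refine diff_log ?_ (by positivity) ?_
  · refine Finset.sum_nonneg fun z _ => ?_
    exact mul_nonneg (mul_nonneg (law_nonneg V _ _) (law_nonneg V _ _)) (Real.exp_pos _).le
  · have key : ∀ x : Fin K → SignType,
        ∑ b : ZMod (QQ P), Real.exp (l * pav P (fun p => f x p b.val)) ≤
          (QQ P : ℝ) * Real.exp (9 * l ^ 2 / (PP P).card) := by
      intro x
      have h1 := expo (PP P) (fun p hp => (Finset.mem_filter.1 hp).2) hne (f x) (h3 x) (h0 x) l
      have h2 : ∑ b : ZMod (QQ P), Real.exp (l * pav P (fun p => f x p b.val)) =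
          ∑ r ∈ range (∏ p ∈ PP P, p),
            Real.exp (l * ((∑ p ∈ PP P, f x p (r % p)) / ((PP P).card : ℝ))) := by
        have h4 : ∀ b : ZMod (QQ P), Real.exp (l * pav P (fun p => f x p b.val)) =
            Real.exp (l * ((∑ p ∈ PP P, f x p (b.val % p)) / ((PP P).card : ℝ))) := by
          intro b
          unfold pav
          rw [Finset.sum_congr rfl fun p hp => (hm x p hp b.val).symm]
        rw [Finset.sum_congr rfl fun b _ => h4 b]
        refine Finset.sum_bij (fun b _ => b.val) ?_ ?_ ?_ ?_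
        · intro b _
          exact Finset.mem_range.2 (ZMod.val_lt b)
        · intro b _ b' _ hb
          exact ZMod.val_injective _ hb
        · intro r hr
          refine ⟨(r : ZMod (QQ P)), Finset.mem_univ _, ?_⟩
          exact ZMod.val_cast_of_lt (Finset.mem_range.1 hr)
        · intro b _
          rfl
      rw [h2]
      refine h1.trans (le_of_eq ?_)
      congr 1
      unfold QQ
      rw [Nat.cast_prod]
    calc ∑ z : (Fin K → SignType) × ZMod (QQ P), law V (win K) z.1 *
          law V (fun n => (n : ZMod (QQ P))) z.2 * Real.exp (l * pav P (fun p => f z.1 p z.2.val))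
        = ∑ x : Fin K → SignType, law V (win K) x * ((1 / (QQ P : ℝ)) *
            ∑ b : ZMod (QQ P), Real.exp (l * pav P (fun p => f x p b.val))) := by
          rw [Fintype.sum_prod_type]
          refine Finset.sum_congr rfl fun x _ => ?_
          rw [Finset.mul_sum, Finset.mul_sum]
          refine Finset.sum_congr rfl fun b _ => ?_
          rw [law_modq V hV]
          ring
      _ ≤ ∑ x : Fin K → SignType, law V (win K) x * Real.exp (9 * l ^ 2 / (PP P).card) := by
          refine Finset.sum_le_sum fun x _ => mul_le_mul_of_nonneg_left ?_ (law_nonneg V _ _)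
          calc (1 / (QQ P : ℝ)) * ∑ b : ZMod (QQ P), Real.exp (l * pav P (fun p => f x p b.val))
              ≤ (1 / (QQ P : ℝ)) * ((QQ P : ℝ) * Real.exp (9 * l ^ 2 / (PP P).card)) :=
                mul_le_mul_of_nonneg_left (key x) (by positivity)
            _ = Real.exp (9 * l ^ 2 / (PP P).card) := by
                rw [← mul_assoc, one_div_mul_cancel hQ.ne', one_mul]
      _ = Real.exp (9 * l ^ 2 / (PP P).card) := by
          rw [← Finset.sum_mul, law_sum V hV, one_mul]

/-- (A3) Sum `z_lam` over `p ∈ PP P` with `L = 4P`, `K = 4PJ ≥ L + p (J-1)`. The main term is `E_q G`, `q` the law of `(win K n, n mod Q)`, `Q = QQ P`, `G(x, r) = pav P (fun p => Z_p(x, r))` (`x : Fin K → SignType` extended by 0; `Zf_congr`, `Zf_mod` with `p ∣ Q`, `lam_comp`).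
`gibbs` for `G` and `-G`, `l = ε |PP|/18`; `q₂` is uniform (`law_modq`, `law_snd`), so the sum in the logarithm is `∑_x q₁(x) (1/Q) ∑_{r<Q} exp(± l G(x,r)) ≤ exp(9 l²/|PP|)` (`expo`, `Zf_abs`, `Zf_sum`). Hence `|E_q G| ≤ (info + 9 l²/|PP|)/l = 18 info/(ε |PP|) + ε/2`. -/
theorem diff_le (V : Ultrafilter ℕ) (hV : (V : Filter ℕ) ≤ atTop) (J : ℕ) (hJ : 1 ≤ J) (φ : (Fin J → ℤ) → ℝ) (hφ : ∀ v, φ (fun j => - v j) = φ v) (hb : ∀ v, |φ v| ≤ 1)
    (P : ℕ) (hP : 1 ≤ P) (hne : (PP P).Nonempty) (ε : ℝ) (hε : 0 < ε) :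
    |Lam V (fun n => φ (fun j => ArithmeticFunction.moebius (n + j))) - pav P (fun p => Lam V (fun n => φ (fun j => ArithmeticFunction.moebius (n + p * j))))| ≤
      18 * info V (4 * P * J) (QQ P) / (ε * (PP P).card) + ε / 2 + 2 * J / P := by
  have hN : (0 : ℝ) < ((PP P).card : ℝ) := Nat.cast_pos.2 (Finset.card_pos.2 hne)
  have hPr : (0 : ℝ) < (P : ℝ) := Nat.cast_pos.2 hP
  have hmem : ∀ p ∈ PP P, P < p ∧ p ≤ 4 * P ∧ p.Prime := by
    intro p hp
    have h1 := Finset.mem_filter.1 hp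
    have h2 := Finset.mem_Ioc.1 h1.1
    exact ⟨h2.1, h2.2, h1.2⟩
  set A : ℝ := Lam V (fun n => φ (fun j => ArithmeticFunction.moebius (n + j))) with hA
  set B : ℕ → ℝ := fun p => Lam V (fun n => φ (fun j => ArithmeticFunction.moebius (n + p * j)))
    with hB
  set Z : ℕ → ℕ → ℝ := fun p n =>
    Zf J φ (4 * P) p (fun i => ArithmeticFunction.moebius (n + i)) n with hZ
  -- step 1
  have hZabs : ∀ p ∈ PP P, ∀ n, |Z p n| ≤ 3 := by
    intro p hp n
    obtain ⟨h1, h2, h3⟩ := hmem p hp
    exact Zf_abs J φ hb (4 * P) p h3.one_le h2 _ _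
  have hstep1 : |A - pav P B - pav P (fun p => Lam V (Z p))| ≤ 2 * J / P := by
    have e : A - pav P B - pav P (fun p => Lam V (Z p)) =
        pav P (fun p => A - B p - Lam V (Z p)) := by
      unfold pav
      rw [Finset.sum_sub_distrib, Finset.sum_sub_distrib, Finset.sum_const, nsmul_eq_mul]
      field_simp
    rw [e]
    unfold pav
    rw [abs_div, abs_of_pos hN, div_le_iff₀ hN]
    calc |∑ p ∈ PP P, (A - B p - Lam V (Z p))| ≤ ∑ p ∈ PP P, |A - B p - Lam V (Z p)| :=
          Finset.abs_sum_le_sum_abs _ _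
      _ ≤ ∑ _p ∈ PP P, 2 * (J : ℝ) / P := by
          refine Finset.sum_le_sum fun p hp => ?_
          obtain ⟨h1, h2, h3⟩ := hmem p hp
          refine (z_lam V hV J φ hφ hb (4 * P) p (by omega) h3).trans ?_
          have : (P : ℝ) ≤ p := by exact_mod_cast h1.le
          gcongr
      _ = 2 * J / P * (PP P).card := by rw [Finset.sum_const, nsmul_eq_mul, mul_comm]
  -- step 2
  set f : (Fin (4 * P * J) → SignType) → ℕ → ℕ → ℝ := fun x p r =>
    Zf J φ (4 * P) p (diffExt x) r with hf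
  have hstep2 : pav P (fun p => Lam V (Z p)) =
      ∑ z, law V (fun n => (win (4 * P * J) n, (n : ZMod (QQ P)))) z *
        pav P (fun p => f z.1 p z.2.val) := by
    rw [diff_pav V P Z 3 hZabs]
    rw [← lam_comp V (fun n => (win (4 * P * J) n, (n : ZMod (QQ P))))
      (fun z => pav P (fun p => f z.1 p z.2.val))]
    congr 1
    funext n
    unfold pav
    congr 1
    refine Finset.sum_congr rfl fun p hp => ?_
    obtain ⟨h1, h2, h3⟩ := hmem p hp
    rw [hZ, hf]
    simp only
    rw [ZMod.val_natCast, Zf_mod J φ (4 * P) p (QQ P) (Finset.dvd_prod_of_mem _ hp)]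
    refine Zf_congr J φ (4 * P) p (4 * P * J) ?_ _ _ (fun i hi => (diff_ext_win hi).symm) n
    obtain ⟨J', rfl⟩ : ∃ J', J = J' + 1 := ⟨J - 1, by omega⟩
    calc 4 * P + p * (J' + 1 - 1) = 4 * P + p * J' := by rw [Nat.add_sub_cancel]
      _ ≤ 4 * P + 4 * P * J' := Nat.add_le_add_left (Nat.mul_le_mul_right _ h2) _
      _ = 4 * P * (J' + 1) := by ring
  set l : ℝ := ε * (PP P).card / 18 with hl
  have hlp : 0 < l := by positivity
  have hI := info_nonneg V hV (4 * P * J) (QQ P)
  have hval : (info V (4 * P * J) (QQ P) + 9 * l ^ 2 / (PP P).card) / l =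
      18 * info V (4 * P * J) (QQ P) / (ε * (PP P).card) + ε / 2 := by
    rw [hl]
    field_simp
    ring
  have hup := diff_expo V hV (4 * P * J) P hne f
    (fun x p hp r => Zf_abs J φ hb (4 * P) p (hmem p hp).2.2.one_le (hmem p hp).2.1 _ _)
    (fun x p hp => Zf_sum J φ (4 * P) p (hmem p hp).2.2.one_le _)
    (fun x p hp r => Zf_mod J φ (4 * P) p p dvd_rfl _ _) l hlp
  have hlo := diff_expo V hV (4 * P * J) P hne (fun x p r => - f x p r)
    (fun x p hp r => by
      rw [abs_neg]
      exact Zf_abs J φ hb (4 * P) p (hmem p hp).2.2.one_le (hmem p hp).2.1 _ _)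
    (fun x p hp => by
      rw [Finset.sum_neg_distrib, neg_eq_zero]
      exact Zf_sum J φ (4 * P) p (hmem p hp).2.2.one_le _)
    (fun x p hp r => by
      rw [neg_inj]
      exact Zf_mod J φ (4 * P) p p dvd_rfl _ _) l hlp
  have hneg : ∑ z, law V (fun n => (win (4 * P * J) n, (n : ZMod (QQ P)))) z *
      pav P (fun p => - f z.1 p z.2.val) =
      - ∑ z, law V (fun n => (win (4 * P * J) n, (n : ZMod (QQ P)))) z *
        pav P (fun p => f z.1 p z.2.val) := by
    rw [← Finset.sum_neg_distrib]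
    refine Finset.sum_congr rfl fun z _ => ?_
    unfold pav
    rw [Finset.sum_neg_distrib]
    ring
  rw [hneg] at hlo
  rw [hval] at hup hlo
  rw [← hstep2] at hup hlo
  obtain ⟨h1, h2⟩ := abs_le.1 hstep1
  rw [abs_le]
  constructor
  · linarith
  · linarith

end Pool.Agent.Lib.MP_3e612f_nt.ZE
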