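import Pool.Agent.Lib.MP_3e612f_nt.ZE.Defs

/-! Entropy of finite vectors. -/

set_option autoImplicit false

namespace Pool.Agent.Lib.MP_3e612f_nt.ZE

open Finset MeasureTheory Filter Topology

theorem ent_nonneg {α : Type} [Fintype α] (p : α → ℝ) (h0 : ∀ a, 0 ≤ p a) (h1 : ∀ a, p a ≤ 1) : 0 ≤ ent p := by
  exact sum_nonneg fun a _ => Real.negMulLog_nonneg (h0 a) (h1 a)

/-- concavity of `negMulLog` (or `log t ≤ t - 1`) -/
theorem ent_le_log_card {α : Type} [Fintype α] [Nonempty α] (p : α → ℝ) (h0 : ∀ a, 0 ≤ p a) (h1 : ∑ a, p a = 1) :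
    ent p ≤ Real.log (Fintype.card α) := by
  have hn : (0 : ℝ) < (Fintype.card α : ℝ) := by exact_mod_cast Fintype.card_pos
  have h : ∀ a, Real.negMulLog (p a) ≤
      p a * Real.log (Fintype.card α) + (1 / (Fintype.card α : ℝ) - p a) := by
    intro a
    rcases (h0 a).eq_or_lt with h2 | h2
    · rw [← h2, Real.negMulLog_zero]
      have : (0 : ℝ) ≤ 1 / (Fintype.card α : ℝ) := by positivity
      linarith
    · have h3 := Real.log_le_sub_one_of_pos (x := 1 / ((Fintype.card α : ℝ) * p a)) (by positivity)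
      rw [Real.log_div one_ne_zero (by positivity), Real.log_one,
        Real.log_mul hn.ne' h2.ne'] at h3
      have h4 := mul_le_mul_of_nonneg_left h3 h2.le
      have h5 : p a * (1 / ((Fintype.card α : ℝ) * p a) - 1) =
          1 / (Fintype.card α : ℝ) - p a := by
        field_simp
      rw [h5] at h4
      rw [Real.negMulLog]
      linarith
  have h6 : ent p ≤ ∑ a, (p a * Real.log (Fintype.card α) + (1 / (Fintype.card α : ℝ) - p a)) :=
    sum_le_sum fun a _ => h a
  refine h6.trans (le_of_eq ?_)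
  rw [sum_add_distrib, sum_sub_distrib, ← sum_mul, h1, sum_const, card_univ, nsmul_eq_mul,
    mul_one_div_cancel hn.ne']
  ring

private theorem ent_marg_aux {β : Type} [Fintype β] (f : β → ℝ) (h0 : ∀ b, 0 ≤ f b) :
    Real.negMulLog (∑ b, f b) ≤ ∑ b, Real.negMulLog (f b) := by
  rw [Real.negMulLog, neg_mul, sum_mul, ← sum_neg_distrib]
  refine sum_le_sum fun b _ => ?_
  rw [Real.negMulLog]
  rcases (h0 b).eq_or_lt with h2 | h2
  · rw [← h2]
    simp
  · have h3 : f b ≤ ∑ b, f b := single_le_sum (fun b _ => h0 b) (mem_univ b)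
    have h4 := mul_le_mul_of_nonneg_left (Real.log_le_log h2 h3) h2.le
    linarith

/-- `negMulLog (s + t) ≤ negMulLog s + negMulLog t` for `s, t ≥ 0`, `log` is monotone -/
theorem ent_marg_le {α β : Type} [Fintype α] [Fintype β] (p : α × β → ℝ) (h0 : ∀ a, 0 ≤ p a) :
    ent (fun a => ∑ b, p (a, b)) ≤ ent p := by
  rw [ent, ent, Fintype.sum_prod_type]
  exact sum_le_sum fun a _ => ent_marg_aux (fun b => p (a, b)) fun b => h0 (a, b)

private theorem ent_ssa_aux {x s u v : ℝ} (hx : 0 ≤ x) (hu : x ≤ u) (hv : x ≤ v) (hs : u ≤ s) :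
    -(x * Real.log x) + -(x * Real.log s) ≤
      -(x * Real.log u) + -(x * Real.log v) + (u * v / s - x) := by
  rcases hx.eq_or_lt with h2 | h2
  · rw [← h2]
    have h3 : 0 ≤ u * v / s :=
      div_nonneg (mul_nonneg (hx.trans hu) (hx.trans hv)) ((hx.trans hu).trans hs)
    linarith
  · have hu0 : 0 < u := h2.trans_le hu
    have hv0 : 0 < v := h2.trans_le hv
    have hs0 : 0 < s := hu0.trans_le hs
    have h3 := Real.log_le_sub_one_of_pos (x := u * v / (x * s)) (by positivity)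
    rw [Real.log_div (by positivity) (by positivity), Real.log_mul hu0.ne' hv0.ne',
      Real.log_mul h2.ne' hs0.ne'] at h3
    have h4 := mul_le_mul_of_nonneg_left h3 h2.le
    have h5 : x * (u * v / (x * s) - 1) = u * v / s - x := by
      field_simp
    rw [h5] at h4
    linarith

/-- strong subadditivity `H(A,B,C) + H(C) ≤ H(A,C) + H(B,C)`: with `log t ≤ t - 1`, `t = p_{ac} p_{bc}/(p_{abc} p_c)`, `∑ p_{abc} log t ≤ ∑ p_{ac} p_{bc}/p_c - ∑ p_{abc} ≤ 0` (terms with `p_{abc} = 0` are left out) -/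
theorem ent_ssa {α β γ : Type} [Fintype α] [Fintype β] [Fintype γ] (p : α × β × γ → ℝ) (h0 : ∀ a, 0 ≤ p a) :
    ent p + ent (fun c => ∑ a, ∑ b, p (a, b, c)) ≤ ent (fun q : α × γ => ∑ b, p (q.1, b, q.2)) + ent (fun q : β × γ => ∑ a, p (a, q.1, q.2)) := by
  have e1 : ent p = ∑ a, ∑ b, ∑ c, -(p (a, b, c) * Real.log (p (a, b, c))) := by
    rw [ent, Fintype.sum_prod_type]
    refine sum_congr rfl fun a _ => ?_
    rw [Fintype.sum_prod_type]
    refine sum_congr rfl fun b _ => sum_congr rfl fun c _ => ?_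
    rw [Real.negMulLog, neg_mul]
  have e2 : ent (fun c => ∑ a, ∑ b, p (a, b, c)) =
      ∑ a, ∑ b, ∑ c, -(p (a, b, c) * Real.log (∑ a', ∑ b', p (a', b', c))) := by
    rw [ent]
    have : ∀ c, Real.negMulLog (∑ a, ∑ b, p (a, b, c)) =
        ∑ a, ∑ b, -(p (a, b, c) * Real.log (∑ a', ∑ b', p (a', b', c))) := by
      intro c
      rw [Real.negMulLog, neg_mul, sum_mul, ← sum_neg_distrib]
      refine sum_congr rfl fun a _ => ?_
      rw [sum_mul, ← sum_neg_distrib]
    rw [sum_congr rfl fun c _ => this c, sum_comm]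
    exact sum_congr rfl fun a _ => sum_comm
  have e3 : ent (fun q : α × γ => ∑ b, p (q.1, b, q.2)) =
      ∑ a, ∑ b, ∑ c, -(p (a, b, c) * Real.log (∑ b', p (a, b', c))) := by
    rw [ent, Fintype.sum_prod_type]
    refine sum_congr rfl fun a _ => ?_
    rw [sum_comm]
    refine sum_congr rfl fun c _ => ?_
    rw [Real.negMulLog, neg_mul, sum_mul, ← sum_neg_distrib]
  have e4 : ent (fun q : β × γ => ∑ a, p (a, q.1, q.2)) =
      ∑ a, ∑ b, ∑ c, -(p (a, b, c) * Real.log (∑ a', p (a', b, c))) := by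
    rw [ent, Fintype.sum_prod_type, sum_comm (s := (univ : Finset α))]
    refine sum_congr rfl fun b _ => ?_
    rw [sum_comm (s := (univ : Finset α))]
    refine sum_congr rfl fun c _ => ?_
    rw [Real.negMulLog, neg_mul, sum_mul, ← sum_neg_distrib]
  have e5 : ∑ a, ∑ b, ∑ c, ((∑ b', p (a, b', c)) * (∑ a', p (a', b, c)) /
      (∑ a', ∑ b', p (a', b', c)) - p (a, b, c)) = 0 := by
    have h1 : ∀ c, ∑ a, ∑ b, ((∑ b', p (a, b', c)) * (∑ a', p (a', b, c)) /
        (∑ a', ∑ b', p (a', b', c)) - p (a, b, c)) = 0 := by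
      intro c
      have h2 : ∑ b, ∑ a', p (a', b, c) = ∑ a', ∑ b', p (a', b', c) := sum_comm
      have h3 : ∑ a, ∑ b, ((∑ b', p (a, b', c)) * (∑ a', p (a', b, c)) /
          (∑ a', ∑ b', p (a', b', c))) = ∑ a', ∑ b', p (a', b', c) := by
        have h4 : ∀ a, ∑ b, ((∑ b', p (a, b', c)) * (∑ a', p (a', b, c)) /
            (∑ a', ∑ b', p (a', b', c))) = (∑ b', p (a, b', c)) *
            ((∑ a', ∑ b', p (a', b', c)) / (∑ a', ∑ b', p (a', b', c))) := by
          intro a
          rw [← sum_div, ← mul_sum, h2, mul_div_assoc]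
        rw [sum_congr rfl fun a _ => h4 a, ← sum_mul]
        rcases eq_or_ne (∑ a', ∑ b', p (a', b', c)) 0 with h5 | h5
        · rw [h5, zero_mul]
        · rw [div_self h5, mul_one]
      have h6 : ∑ a, ∑ b, ((∑ b', p (a, b', c)) * (∑ a', p (a', b, c)) /
          (∑ a', ∑ b', p (a', b', c)) - p (a, b, c)) =
          ∑ a, ∑ b, ((∑ b', p (a, b', c)) * (∑ a', p (a', b, c)) /
          (∑ a', ∑ b', p (a', b', c))) - ∑ a, ∑ b, p (a, b, c) := by
        rw [← sum_sub_distrib]
        exact sum_congr rfl fun a _ => sum_sub_distrib _ _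
      rw [h6, h3, sub_self]
    have h7 : ∑ a, ∑ b, ∑ c, ((∑ b', p (a, b', c)) * (∑ a', p (a', b, c)) /
        (∑ a', ∑ b', p (a', b', c)) - p (a, b, c)) = ∑ c, ∑ a, ∑ b, ((∑ b', p (a, b', c)) *
        (∑ a', p (a', b, c)) / (∑ a', ∑ b', p (a', b', c)) - p (a, b, c)) := by
      rw [sum_comm (s := (univ : Finset γ))]
      exact sum_congr rfl fun a _ => sum_comm
    rw [h7]
    exact sum_eq_zero fun c _ => h1 c
  rw [e1, e2, e3, e4]
  refine le_trans ?_ (le_of_eq (add_zero _))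
  refine le_trans ?_ (add_le_add le_rfl e5.le)
  rw [← sum_add_distrib, ← sum_add_distrib, ← sum_add_distrib]
  refine sum_le_sum fun a _ => ?_
  rw [← sum_add_distrib, ← sum_add_distrib, ← sum_add_distrib]
  refine sum_le_sum fun b _ => ?_
  rw [← sum_add_distrib, ← sum_add_distrib, ← sum_add_distrib]
  refine sum_le_sum fun c _ => ?_
  refine ent_ssa_aux (h0 _) ?_ ?_ ?_
  · exact single_le_sum (f := fun b' => p (a, b', c)) (fun b' _ => h0 _) (mem_univ b)
  · exact single_le_sum (f := fun a' => p (a', b, c)) (fun a' _ => h0 _) (mem_univ a)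
  · exact single_le_sum (f := fun a' => ∑ b', p (a', b', c))
      (fun a' _ => sum_nonneg fun b' _ => h0 _) (mem_univ a)

end Pool.Agent.Lib.MP_3e612f_nt.ZE
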