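import Pool.Agent.Lib.MP_3e612f_nt.ZE.Defs

/-! The entropy decrement cannot go on for ever (real analysis). -/

set_option autoImplicit false

namespace Pool.Agent.Lib.MP_3e612f_nt.ZE

open Finset MeasureTheory Filter Topology

/-- (A5) Start with `P₀` (`≥ 16`, `b ≥ 1` without loss of generality), `P_{i+1} = k_i P_i ≥ P_i`; `l_i = log P_i`, `l_{i+1} ≤ l_i + log (b l_i)`; `∑_{i<n} c/l_i ≤ h(P₀)`. If `l_i` is bounded the sum diverges; otherwise `log log l_{i+1} - log log l_i ≤ (l_{i+1} - l_i)/(l_i log l_i) ≤ C/l_i` for `l_i ≥ 2`. -/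
theorem iter_false (h : ℕ → ℝ) (h0 : ∀ P, 0 ≤ h P) (b c : ℝ) (hb : 0 < b) (hc : 0 < c) (P₀ : ℕ)
    (H : ∀ P ≥ P₀, ∃ k : ℕ, 1 ≤ k ∧ (k : ℝ) ≤ b * Real.log P ∧ h (k * P) ≤ h P - c / Real.log P) : False := by
  classical
  choose! k hk using H
  obtain ⟨P, hP0, hPs⟩ : ∃ P : ℕ → ℕ, P 0 = max P₀ 16 ∧ ∀ n, P (n + 1) = k (P n) * P n :=
    ⟨fun n => (fun Q => k Q * Q)^[n] (max P₀ 16), rfl, fun n =>
      Function.iterate_succ_apply' (fun Q => k Q * Q) n (max P₀ 16)⟩
  have hge : ∀ n, max P₀ 16 ≤ P n := by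
    intro n
    induction n with
    | zero => exact hP0.ge
    | succ n ih =>
      have h1 := (hk (P n) ((le_max_left _ _).trans ih)).1
      rw [hPs]
      exact ih.trans (Nat.le_mul_of_pos_left _ h1)
  have hge0 : ∀ n, P₀ ≤ P n := fun n => (le_max_left _ _).trans (hge n)
  have hge16 : ∀ n, 16 ≤ P n := fun n => (le_max_right _ _).trans (hge n)
  obtain ⟨l, hl⟩ : ∃ l : ℕ → ℝ, l = fun n => Real.log (P n) := ⟨_, rfl⟩
  have hln : ∀ n, Real.log (P n) = l n := fun n => by rw [hl]
  have hlog2 : 0 < Real.log 2 := Real.log_pos (by norm_num)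
  have hl2 : ∀ n, 2 ≤ l n := by
    intro n
    have h1 : Real.log 16 ≤ l n := by
      rw [← hln]
      exact Real.log_le_log (by norm_num) (by exact_mod_cast hge16 n)
    have h2 : Real.log 16 = 4 * Real.log 2 := by
      have : (16 : ℝ) = 2 ^ 4 := by norm_num
      rw [this, Real.log_pow]
      norm_num
    have h3 := Real.log_two_gt_d9
    linarith
  have hstep : ∀ n, l (n + 1) - l n ≤ Real.log (b * l n) := by
    intro n
    obtain ⟨h1, h2, -⟩ := hk (P n) (hge0 n)
    have hk0 : (0 : ℝ) < k (P n) := by exact_mod_cast h1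
    have hPn : (0 : ℝ) < P n := by
      have := hge16 n
      exact_mod_cast (by omega : 0 < P n)
    have h3 : l (n + 1) = Real.log (k (P n)) + l n := by
      rw [← hln, ← hln, hPs]
      push_cast
      exact Real.log_mul hk0.ne' hPn.ne'
    rw [h3, add_sub_cancel_right]
    rw [hln] at h2
    exact Real.log_le_log hk0 h2
  have hsum : ∀ n, h (P n) ≤ h (P 0) - c * ∑ i ∈ range n, 1 / l i := by
    intro n
    induction n with
    | zero => simp
    | succ n ih =>
      have h1 := (hk (P n) (hge0 n)).2.2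
      rw [hln] at h1
      rw [hPs, Finset.sum_range_succ, mul_add]
      have h2 : c / l n = c * (1 / l n) := by ring
      linarith
  obtain ⟨M, hM⟩ : ∃ M, M = h (P 0) / c := ⟨_, rfl⟩
  have hsumM : ∀ n, ∑ i ∈ range n, 1 / l i ≤ M := by
    intro n
    rw [hM, le_div_iff₀ hc]
    have h1 := hsum n
    have h2 := h0 (P n)
    linarith
  obtain ⟨C, hC⟩ : ∃ C, C = 1 + |Real.log b| / Real.log 2 := ⟨_, rfl⟩
  have hC0 : 0 ≤ C := by
    rw [hC]
    positivity
  have hG : ∀ n, Real.log (Real.log (l (n + 1))) - Real.log (Real.log (l n)) ≤ C * (1 / l n) := by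
    intro n
    have hx := hl2 n
    have hy := hl2 (n + 1)
    have hx0 : 0 < l n := by linarith
    have hy0 : 0 < l (n + 1) := by linarith
    have hlx : Real.log 2 ≤ Real.log (l n) := Real.log_le_log (by norm_num) hx
    have hly : Real.log 2 ≤ Real.log (l (n + 1)) := Real.log_le_log (by norm_num) hy
    have hlx0 : 0 < Real.log (l n) := hlog2.trans_le hlx
    have hly0 : 0 < Real.log (l (n + 1)) := hlog2.trans_le hly
    have h1 : Real.log (Real.log (l (n + 1))) - Real.log (Real.log (l n)) ≤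
        Real.log (l (n + 1)) / Real.log (l n) - 1 := by
      rw [← Real.log_div hly0.ne' hlx0.ne']
      exact Real.log_le_sub_one_of_pos (div_pos hly0 hlx0)
    have h2 : Real.log (l (n + 1)) - Real.log (l n) ≤ l (n + 1) / l n - 1 := by
      rw [← Real.log_div hy0.ne' hx0.ne']
      exact Real.log_le_sub_one_of_pos (div_pos hy0 hx0)
    have h3 : l (n + 1) / l n - 1 ≤ Real.log (b * l n) / l n := by
      rw [div_sub_one hx0.ne']
      exact div_le_div_of_nonneg_right (hstep n) hx0.le
    have h4 : Real.log (b * l n) ≤ C * Real.log (l n) := by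
      rw [Real.log_mul hb.ne' hx0.ne', hC, add_mul, one_mul]
      have h5 : Real.log b ≤ |Real.log b| := le_abs_self _
      have h6 : |Real.log b| ≤ |Real.log b| / Real.log 2 * Real.log (l n) := by
        rw [div_mul_eq_mul_div, le_div_iff₀ hlog2]
        exact mul_le_mul_of_nonneg_left hlx (abs_nonneg _)
      linarith
    have h5 : Real.log (l (n + 1)) / Real.log (l n) - 1 ≤ C * (1 / l n) := by
      rw [div_sub_one hlx0.ne', div_le_iff₀ hlx0]
      refine h2.trans (h3.trans ?_)
      rw [div_le_iff₀ hx0]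
      have h6 : C * (1 / l n) * Real.log (l n) * l n = C * Real.log (l n) := by
        field_simp
      rw [h6]
      exact h4
    exact h1.trans h5
  have hGsum : ∀ n, Real.log (Real.log (l n)) ≤
      Real.log (Real.log (l 0)) + C * ∑ i ∈ range n, 1 / l i := by
    intro n
    induction n with
    | zero => simp
    | succ n ih =>
      have h1 := hG n
      rw [Finset.sum_range_succ, mul_add]
      linarith
  obtain ⟨B, hB⟩ : ∃ B, B = Real.log (Real.log (l 0)) + C * M := ⟨_, rfl⟩
  have hbd : ∀ n, l n ≤ Real.exp (Real.exp B) := by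
    intro n
    have hx := hl2 n
    have hx0 : 0 < l n := by linarith
    have hlx0 : 0 < Real.log (l n) := hlog2.trans_le (Real.log_le_log (by norm_num) hx)
    have h1 : Real.log (Real.log (l n)) ≤ B := by
      rw [hB]
      have := mul_le_mul_of_nonneg_left (hsumM n) hC0
      have h2 := hGsum n
      linarith
    rw [← Real.log_le_iff_le_exp hx0, ← Real.log_le_iff_le_exp hlx0]
    exact h1
  obtain ⟨K, hK⟩ : ∃ K, K = Real.exp (Real.exp B) := ⟨_, rfl⟩
  have hK0 : 0 < K := by
    rw [hK]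
    exact Real.exp_pos _
  have hfin : ∀ n : ℕ, (n : ℝ) / K ≤ M := by
    intro n
    refine le_trans ?_ (hsumM n)
    have h1 : ∀ i ∈ range n, 1 / K ≤ 1 / l i := by
      intro i _
      have hx0 : 0 < l i := by linarith [hl2 i]
      exact one_div_le_one_div_of_le hx0 (by rw [hK]; exact hbd i)
    have h2 := Finset.sum_le_sum h1
    rw [Finset.sum_const, Finset.card_range, nsmul_eq_mul] at h2
    calc (n : ℝ) / K = n * (1 / K) := by ring
      _ ≤ ∑ i ∈ range n, 1 / l i := h2
  obtain ⟨n, hn⟩ := exists_nat_gt (M * K)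
  have h1 := hfin n
  rw [div_le_iff₀ hK0] at h1
  linarith

end Pool.Agent.Lib.MP_3e612f_nt.ZE
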