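import Pool.Agent.Lib.MP_3e612f_nt.ZE.Defs

/-! Logarithmic means along an ultrafilter: linearity and order. -/

set_option autoImplicit false

namespace Pool.Agent.Lib.MP_3e612f_nt.ZE

open Finset MeasureTheory Filter Topology

theorem lw_pos {N : ℕ} (hN : 1 ≤ N) : 0 < lw N :=
  Finset.sum_pos (fun i _ => by positivity) ⟨0, Finset.mem_range.2 hN⟩

/-- harmonic series -/
theorem lw_tendsto : Tendsto lw atTop atTop :=
  Real.tendsto_sum_range_one_div_nat_succ_atTop

private theorem lam1_nonneg (N : ℕ) : 0 ≤ lw N := Finset.sum_nonneg fun i _ => by positivity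

theorem lav_abs_le (N : ℕ) (F : ℕ → ℝ) (C : ℝ) (h : ∀ n, |F n| ≤ C) : |lav N F| ≤ C := by
  have hC : 0 ≤ C := (abs_nonneg _).trans (h 0)
  unfold lav
  rw [abs_div, abs_of_nonneg (lam1_nonneg N)]
  refine div_le_of_le_mul₀ (lam1_nonneg N) hC ?_
  refine (Finset.abs_sum_le_sum_abs _ _).trans ?_
  unfold lw
  rw [Finset.mul_sum]
  refine Finset.sum_le_sum fun n _ => ?_
  have hn : (0 : ℝ) < (n : ℝ) + 1 := by positivity
  rw [abs_div, abs_of_pos hn, mul_one_div]
  exact div_le_div_of_nonneg_right (h n) hn.le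

/-- A bounded real sequence converges along every ultrafilter (`IsCompact.ultrafilter_le_nhds` for `Set.Icc (-C) C`, then `Filter.Tendsto.limUnder_eq`). -/
theorem lam_tendsto (V : Ultrafilter ℕ) (F : ℕ → ℝ) (C : ℝ) (h : ∀ n, |F n| ≤ C) : Tendsto (fun N => lav N F) V (𝓝 (Lam V F)) := by
  have hK : IsCompact (Set.Icc (-C) C) := isCompact_Icc
  have h1 : ((V.map fun N => lav N F : Ultrafilter ℝ) : Filter ℝ) ≤ 𝓟 (Set.Icc (-C) C) := by
    rw [Filter.le_principal_iff, Ultrafilter.coe_map]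
    exact Filter.mem_map.2 (Filter.Eventually.of_forall fun N => abs_le.1 (lav_abs_le N F C h))
  obtain ⟨x, _, hx⟩ := hK.ultrafilter_le_nhds _ h1
  exact tendsto_nhds_limUnder ⟨x, hx⟩

theorem lam_eq (V : Ultrafilter ℕ) (F : ℕ → ℝ) (l : ℝ) (h : Tendsto (fun N => lav N F) V (𝓝 l)) : Lam V F = l :=
  h.limUnder_eq

theorem lam_add (V : Ultrafilter ℕ) (F G : ℕ → ℝ) (C : ℝ) (hF : ∀ n, |F n| ≤ C) (hG : ∀ n, |G n| ≤ C) :
    Lam V (fun n => F n + G n) = Lam V F + Lam V G := by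
  have e : (fun N => lav N (fun n => F n + G n)) = fun N => lav N F + lav N G := by
    funext N
    unfold lav
    rw [← add_div, ← Finset.sum_add_distrib]
    congr 1
    exact Finset.sum_congr rfl fun n _ => add_div _ _ _
  refine lam_eq V _ _ ?_
  rw [e]
  exact (lam_tendsto V F C hF).add (lam_tendsto V G C hG)

theorem lam_smul (V : Ultrafilter ℕ) (c : ℝ) (F : ℕ → ℝ) (C : ℝ) (hF : ∀ n, |F n| ≤ C) :
    Lam V (fun n => c * F n) = c * Lam V F := by
  have e : (fun N => lav N (fun n => c * F n)) = fun N => c * lav N F := by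
    funext N
    unfold lav
    rw [← mul_div_assoc, Finset.mul_sum]
    congr 1
    exact Finset.sum_congr rfl fun n _ => mul_div_assoc _ _ _
  refine lam_eq V _ _ ?_
  rw [e]
  exact (lam_tendsto V F C hF).const_mul c

theorem lam_sum {ι : Type} (V : Ultrafilter ℕ) (s : Finset ι) (F : ι → ℕ → ℝ) (C : ℝ) (h : ∀ i ∈ s, ∀ n, |F i n| ≤ C) :
    Lam V (fun n => ∑ i ∈ s, F i n) = ∑ i ∈ s, Lam V (F i) := by
  have e : (fun N => lav N (fun n => ∑ i ∈ s, F i n)) = fun N => ∑ i ∈ s, lav N (F i) := by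
    funext N
    unfold lav
    rw [← Finset.sum_div, Finset.sum_comm]
    congr 1
    exact Finset.sum_congr rfl fun n _ => Finset.sum_div _ _ _
  refine lam_eq V _ _ ?_
  rw [e]
  exact tendsto_finsetSum s fun i hi => lam_tendsto V (F i) C (h i hi)

theorem lam_const (V : Ultrafilter ℕ) (hV : (V : Filter ℕ) ≤ atTop) (c : ℝ) : Lam V (fun _ => c) = c := by
  refine lam_eq V _ _ ?_
  have h0 : ∀ᶠ N in (V : Filter ℕ), 1 ≤ N := hV (eventually_ge_atTop 1)
  have h1 : ∀ᶠ N in (V : Filter ℕ), c = lav N (fun _ => c) := by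
    refine h0.mono fun N hN => ?_
    have h2 := lw_pos hN
    unfold lav
    rw [eq_div_iff h2.ne']
    unfold lw
    rw [Finset.mul_sum]
    exact Finset.sum_congr rfl fun n _ => mul_one_div _ _
  exact (tendsto_const_nhds (x := c)).congr' h1

theorem lam_mono (V : Ultrafilter ℕ) (F G : ℕ → ℝ) (C : ℝ) (hF : ∀ n, |F n| ≤ C) (hG : ∀ n, |G n| ≤ C) (h : ∀ n, F n ≤ G n) :
    Lam V F ≤ Lam V G := by
  refine le_of_tendsto_of_tendsto' (lam_tendsto V F C hF) (lam_tendsto V G C hG) fun N => ?_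
  unfold lav
  refine div_le_div_of_nonneg_right (Finset.sum_le_sum fun n _ => ?_) (lam1_nonneg N)
  exact div_le_div_of_nonneg_right (h n) (by positivity)

theorem lam_abs_le (V : Ultrafilter ℕ) (F : ℕ → ℝ) (C : ℝ) (hF : ∀ n, |F n| ≤ C) : |Lam V F| ≤ C :=
  le_of_tendsto (lam_tendsto V F C hF).abs (Filter.Eventually.of_forall fun N => lav_abs_le N F C hF)

end Pool.Agent.Lib.MP_3e612f_nt.ZE
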