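import Pool.Agent.Lib.MP_3e612f_nt.ZE.A.Lam1

/-! Logarithmic means along an ultrafilter: shifts, dilations, residue classes. -/

set_option autoImplicit false

namespace Pool.Agent.Lib.MP_3e612f_nt.ZE

open Finset MeasureTheory Filter Topology

/-- Two bounded functions whose logarithmic sums stay at bounded distance have the same mean. -/
private theorem lam2_close (V : Ultrafilter ℕ) (hV : (V : Filter ℕ) ≤ atTop) (F G : ℕ → ℝ) (C B : ℝ)
    (hG : ∀ n, |G n| ≤ C)
    (h : ∀ N, |∑ n ∈ range N, F n / ((n : ℝ) + 1) - ∑ n ∈ range N, G n / ((n : ℝ) + 1)| ≤ B) :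
    Lam V F = Lam V G := by
  have h1 : Tendsto (fun N => lav N F - lav N G) atTop (𝓝 0) := by
    refine squeeze_zero_norm (a := fun N => B / lw N) (fun N => ?_) ?_
    · unfold lav
      rw [← sub_div, Real.norm_eq_abs, abs_div]
      rcases Nat.eq_zero_or_pos N with rfl | hN
      · simp [lw]
      · have hp := lw_pos hN
        rw [abs_of_pos hp]
        exact div_le_div_of_nonneg_right (h N) hp.le
    · exact Tendsto.div_atTop tendsto_const_nhds lw_tendsto
  have h2 := lam_tendsto V G C hG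
  refine lam_eq V F _ ?_
  have h3 := (h1.mono_left hV).add h2
  rw [zero_add] at h3
  refine h3.congr fun N => ?_
  ring

/-- (L2) `|∑_{n<N} (F(n+1) - F(n))/(n+1)| ≤ C (1 + ∑ 1/((n+1)(n+2)) + 1)`, divided by `lw N → ∞`. -/
theorem lam_shift1 (V : Ultrafilter ℕ) (hV : (V : Filter ℕ) ≤ atTop) (F : ℕ → ℝ) (C : ℝ) (hF : ∀ n, |F n| ≤ C) :
    Lam V (fun n => F (n + 1)) = Lam V F := by
  have hC : 0 ≤ C := (abs_nonneg _).trans (hF 0)
  refine lam2_close V hV _ F C (3 * C) hF fun N => ?_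
  have h1 : ∀ N : ℕ, ∑ n ∈ range N, F (n + 1) / ((n : ℝ) + 1) - ∑ n ∈ range N, F n / ((n : ℝ) + 1) =
      F N / ((N : ℝ) + 1) - F 0 +
        ∑ n ∈ range N, F (n + 1) * (1 / ((n : ℝ) + 1) - 1 / ((n : ℝ) + 2)) := by
    intro N
    induction N with
    | zero => simp
    | succ N ih =>
      rw [Finset.sum_range_succ, Finset.sum_range_succ, Finset.sum_range_succ]
      have e1 : ((N + 1 : ℕ) : ℝ) + 1 = (N : ℝ) + 2 := by push_cast; ring
      rw [e1]
      have h2 : (N : ℝ) + 1 ≠ 0 := by positivity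
      have h3 : (N : ℝ) + 2 ≠ 0 := by positivity
      have e2 : F (N + 1) / ((N : ℝ) + 2) = F (N + 1) * (1 / ((N : ℝ) + 2)) := by ring
      have e3 : F (N + 1) / ((N : ℝ) + 1) = F (N + 1) * (1 / ((N : ℝ) + 1)) := by ring
      rw [e2, e3]
      linear_combination ih
  have h2 : ∀ N : ℕ, ∑ n ∈ range N, (1 / ((n : ℝ) + 1) - 1 / ((n : ℝ) + 2)) = 1 - 1 / ((N : ℝ) + 1) := by
    intro N
    induction N with
    | zero => simp
    | succ N ih =>
      rw [Finset.sum_range_succ, ih]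
      have e1 : ((N + 1 : ℕ) : ℝ) + 1 = (N : ℝ) + 2 := by push_cast; ring
      rw [e1]
      ring
  have h3 : |∑ n ∈ range N, F (n + 1) * (1 / ((n : ℝ) + 1) - 1 / ((n : ℝ) + 2))| ≤ C := by
    refine (Finset.abs_sum_le_sum_abs _ _).trans ?_
    have h4 : ∀ n ∈ range N, |F (n + 1) * (1 / ((n : ℝ) + 1) - 1 / ((n : ℝ) + 2))| ≤
        C * (1 / ((n : ℝ) + 1) - 1 / ((n : ℝ) + 2)) := by
      intro n _
      have h5 : 0 ≤ 1 / ((n : ℝ) + 1) - 1 / ((n : ℝ) + 2) := by
        rw [sub_nonneg]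
        exact one_div_le_one_div_of_le (by positivity) (by linarith)
      rw [abs_mul, abs_of_nonneg h5]
      exact mul_le_mul_of_nonneg_right (hF _) h5
    refine (Finset.sum_le_sum h4).trans ?_
    rw [← Finset.mul_sum, h2]
    have h5 : 0 ≤ 1 / ((N : ℝ) + 1) := by positivity
    nlinarith
  rw [h1 N]
  have h4 : |F N / ((N : ℝ) + 1)| ≤ C := by
    rw [abs_div, abs_of_pos (show (0 : ℝ) < (N : ℝ) + 1 by positivity)]
    refine (div_le_self (abs_nonneg _) ?_).trans (hF N)
    have : (0 : ℝ) ≤ N := Nat.cast_nonneg N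
    linarith
  have h5 := hF 0
  rw [abs_le] at h3 h4 h5 ⊢
  constructor <;> linarith

theorem lam_shift (V : Ultrafilter ℕ) (hV : (V : Filter ℕ) ≤ atTop) (F : ℕ → ℝ) (C : ℝ) (hF : ∀ n, |F n| ≤ C) (k : ℕ) :
    Lam V (fun n => F (n + k)) = Lam V F := by
  induction k with
  | zero => rfl
  | succ k ih =>
    have h1 := lam_shift1 V hV (fun n => F (n + k)) C (fun n => hF _)
    rw [← ih, ← h1]
    have e : (fun n => F (n + (k + 1))) = fun n => F (n + 1 + k) := by
      funext n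
      rw [show n + (k + 1) = n + 1 + k by omega]
    rw [e]

/-- the multiples of `p` in the first `M` blocks -/
private theorem lam2_blocks (F : ℕ → ℝ) (p : ℕ) (hp : 1 ≤ p) (M : ℕ) :
    ∑ n ∈ range (p * M), (if p ∣ n then (p : ℝ) * F (n / p) else 0) / ((n : ℝ) + 1) =
      ∑ n ∈ range M, (p : ℝ) * F n / ((p : ℝ) * n + 1) := by
  induction M with
  | zero => simp
  | succ M ih =>
    rw [Nat.mul_succ, Finset.sum_range_add, ih, Finset.sum_range_succ]
    congr 1
    rw [Finset.sum_eq_single_of_mem 0 (Finset.mem_range.2 hp)]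
    · rw [Nat.add_zero, if_pos (Dvd.intro _ rfl), Nat.mul_div_cancel_left _ hp]
      push_cast
      ring
    · intro i hi hi0
      rw [Finset.mem_range] at hi
      rw [if_neg, zero_div]
      intro h
      have h2 : p ∣ i := (Nat.dvd_add_right (Dvd.intro _ rfl)).1 h
      exact absurd (Nat.le_of_dvd (by omega) h2) (by omega)

/-- (L3) `∑_{m < N, p ∣ m} p F(m/p)/(m+1) = ∑_{n < ⌈N/p⌉} p F(n)/(pn+1)`, and `p/(pn+1) - 1/(n+1) = (p-1)/((pn+1)(n+1))` is summable; the part `⌈N/p⌉ ≤ n < N` of `∑ F(n)/(n+1)` is at most `C (log p + 2)`. -/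
theorem lam_dil (V : Ultrafilter ℕ) (hV : (V : Filter ℕ) ≤ atTop) (F : ℕ → ℝ) (C : ℝ) (hF : ∀ n, |F n| ≤ C) (p : ℕ) (hp : 1 ≤ p) :
    Lam V (fun n => if p ∣ n then (p : ℝ) * F (n / p) else 0) = Lam V F := by
  have hC : 0 ≤ C := (abs_nonneg _).trans (hF 0)
  have hp1 : (1 : ℝ) ≤ p := by exact_mod_cast hp
  refine lam2_close V hV _ F C (2 * p * C + p * C + p * C) hF fun N => ?_
  obtain ⟨M, r, hr, hN⟩ : ∃ M r : ℕ, r < p ∧ N = p * M + r :=
    ⟨N / p, N % p, Nat.mod_lt _ hp, (Nat.div_add_mod N p).symm⟩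
  obtain ⟨t, ht⟩ : ∃ t : ℕ, N = M + t := by
    refine ⟨N - M, ?_⟩
    have : M ≤ p * M := Nat.le_mul_of_pos_left M hp
    omega
  -- the three parts
  have h1 : |∑ i ∈ range r, (if p ∣ p * M + i then (p : ℝ) * F ((p * M + i) / p) else 0) /
      (((p * M + i : ℕ) : ℝ) + 1)| ≤ p * C := by
    rcases Nat.eq_zero_or_pos r with rfl | hr0
    · simp only [Finset.range_zero, Finset.sum_empty, abs_zero]
      positivity
    · rw [Finset.sum_eq_single_of_mem 0 (Finset.mem_range.2 hr0)]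
      · rw [Nat.add_zero, if_pos (Dvd.intro _ rfl), Nat.mul_div_cancel_left _ hp, abs_div,
          abs_of_pos (show (0 : ℝ) < ((p * M : ℕ) : ℝ) + 1 by positivity), abs_mul,
          abs_of_nonneg (show (0 : ℝ) ≤ (p : ℝ) by positivity)]
        refine (div_le_self (by positivity) ?_).trans (mul_le_mul_of_nonneg_left (hF _) (by positivity))
        have : (0 : ℝ) ≤ ((p * M : ℕ) : ℝ) := Nat.cast_nonneg _
        linarith
      · intro i hi hi0
        rw [Finset.mem_range] at hi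
        rw [if_neg, zero_div]
        intro h
        have h2 : p ∣ i := (Nat.dvd_add_right (Dvd.intro _ rfl)).1 h
        exact absurd (Nat.le_of_dvd (by omega) h2) (by omega)
  have h2 : |∑ i ∈ range t, F (M + i) / (((M + i : ℕ) : ℝ) + 1)| ≤ p * C := by
    refine (Finset.abs_sum_le_sum_abs _ _).trans ?_
    have h3 : ∀ i ∈ range t, |F (M + i) / (((M + i : ℕ) : ℝ) + 1)| ≤ C / ((M : ℝ) + 1) := by
      intro i _
      rw [abs_div, abs_of_pos (show (0 : ℝ) < ((M + i : ℕ) : ℝ) + 1 by positivity)]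
      refine div_le_div₀ hC (hF _) (by positivity) ?_
      push_cast
      have : (0 : ℝ) ≤ i := Nat.cast_nonneg i
      linarith
    refine (Finset.sum_le_sum h3).trans ?_
    rw [Finset.sum_const, Finset.card_range, nsmul_eq_mul]
    have h4 : (t : ℝ) ≤ p * ((M : ℝ) + 1) := by
      have h5 : t ≤ p * (M + 1) := by
        rw [Nat.mul_succ]
        omega
      exact_mod_cast h5
    calc (t : ℝ) * (C / ((M : ℝ) + 1)) ≤ p * ((M : ℝ) + 1) * (C / ((M : ℝ) + 1)) :=
          mul_le_mul_of_nonneg_right h4 (by positivity)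
      _ = p * C := by
          have : (M : ℝ) + 1 ≠ 0 := by positivity
          field_simp
  have h3 : |∑ n ∈ range M, (p : ℝ) * F n / ((p : ℝ) * n + 1) - ∑ n ∈ range M, F n / ((n : ℝ) + 1)| ≤
      2 * p * C := by
    rw [← Finset.sum_sub_distrib]
    refine (Finset.abs_sum_le_sum_abs _ _).trans ?_
    have h4 : ∀ n ∈ range M, |(p : ℝ) * F n / ((p : ℝ) * n + 1) - F n / ((n : ℝ) + 1)| ≤
        2 * p * C * (1 / ((n : ℝ) + 1) - 1 / ((n : ℝ) + 2)) := by
      intro n _
      have hn : (0 : ℝ) ≤ n := Nat.cast_nonneg n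
      have a1 : (0 : ℝ) < (n : ℝ) + 1 := by positivity
      have a2 : (0 : ℝ) < (n : ℝ) + 2 := by positivity
      have a3 : (0 : ℝ) < (p : ℝ) * n + 1 := by positivity
      have e1 : (p : ℝ) * F n / ((p : ℝ) * n + 1) - F n / ((n : ℝ) + 1) =
          F n * ((p - 1) / (((p : ℝ) * n + 1) * ((n : ℝ) + 1))) := by
        field_simp
        ring
      have e2 : 1 / ((n : ℝ) + 1) - 1 / ((n : ℝ) + 2) = 1 / (((n : ℝ) + 1) * ((n : ℝ) + 2)) := by
        field_simp
        ring
      have a4 : 0 ≤ (p - 1) / (((p : ℝ) * n + 1) * ((n : ℝ) + 1)) :=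
        div_nonneg (by linarith) (by positivity)
      rw [e1, e2, abs_mul, abs_of_nonneg a4]
      have a5 : (p - 1) / (((p : ℝ) * n + 1) * ((n : ℝ) + 1)) ≤
          2 * p * (1 / (((n : ℝ) + 1) * ((n : ℝ) + 2))) := by
        rw [mul_one_div, div_le_div_iff₀ (by positivity) (by positivity)]
        have a6 : ((p : ℝ) - 1) * ((n : ℝ) + 2) ≤ 2 * p * ((p : ℝ) * n + 1) := by
          nlinarith [mul_nonneg hn (sub_nonneg.2 hp1), mul_nonneg (mul_nonneg hn (sub_nonneg.2 hp1))
            (sub_nonneg.2 hp1)]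
        nlinarith
      calc |F n| * ((p - 1) / (((p : ℝ) * n + 1) * ((n : ℝ) + 1)))
          ≤ C * (2 * p * (1 / (((n : ℝ) + 1) * ((n : ℝ) + 2)))) :=
            mul_le_mul (hF n) a5 a4 hC
        _ = 2 * p * C * (1 / (((n : ℝ) + 1) * ((n : ℝ) + 2))) := by ring
    refine (Finset.sum_le_sum h4).trans ?_
    rw [← Finset.mul_sum]
    have h5 : ∀ N : ℕ, ∑ n ∈ range N, (1 / ((n : ℝ) + 1) - 1 / ((n : ℝ) + 2)) =
        1 - 1 / ((N : ℝ) + 1) := by
      intro N
      induction N with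
      | zero => simp
      | succ N ih =>
        rw [Finset.sum_range_succ, ih]
        have e1 : ((N + 1 : ℕ) : ℝ) + 1 = (N : ℝ) + 2 := by push_cast; ring
        rw [e1]
        ring
    rw [h5]
    have h6 : 0 ≤ 1 / ((M : ℝ) + 1) := by positivity
    exact mul_le_of_le_one_right (by positivity) (by linarith)
  have e1 : ∑ n ∈ range N, (if p ∣ n then (p : ℝ) * F (n / p) else 0) / ((n : ℝ) + 1) =
      ∑ n ∈ range M, (p : ℝ) * F n / ((p : ℝ) * n + 1) +
        ∑ i ∈ range r, (if p ∣ p * M + i then (p : ℝ) * F ((p * M + i) / p) else 0) /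
          (((p * M + i : ℕ) : ℝ) + 1) := by
    rw [hN, Finset.sum_range_add, lam2_blocks F p hp M]
  have e2 : ∑ n ∈ range N, F n / ((n : ℝ) + 1) = ∑ n ∈ range M, F n / ((n : ℝ) + 1) +
      ∑ i ∈ range t, F (M + i) / (((M + i : ℕ) : ℝ) + 1) := by
    rw [ht, Finset.sum_range_add]
  rw [e1, e2]
  rw [abs_le] at h1 h2 h3 ⊢
  constructor <;> linarith

/-- (L5) shifts: all residue classes have the same mean, and the sum is 1 -/
theorem lam_mod (V : Ultrafilter ℕ) (hV : (V : Filter ℕ) ≤ atTop) (q r : ℕ) (hq : 1 ≤ q) (hr : r < q) :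
    Lam V (fun n => if n % q = r then 1 else 0) = 1 / (q : ℝ) := by
  have hb : ∀ r n : ℕ, |(if n % q = r then (1 : ℝ) else 0)| ≤ 1 := by
    intro r n
    split_ifs <;> simp
  have h1 : ∀ r : ℕ, r < q → Lam V (fun n => if n % q = r then (1 : ℝ) else 0) =
      Lam V (fun n => if n % q = 0 then (1 : ℝ) else 0) := by
    intro r
    induction r with
    | zero => exact fun _ => rfl
    | succ r ih =>
      intro hr
      rw [← ih (by omega), ← lam_shift1 V hV _ 1 (hb (r + 1))]
      congr 1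
      funext n
      have e : (n + 1) % q = r + 1 ↔ n % q = r := by
        constructor
        · intro h
          have h2 : (n + 1) % q = (r + 1) % q := by rw [h, Nat.mod_eq_of_lt hr]
          have h3 : n ≡ r [MOD q] := Nat.ModEq.add_right_cancel' 1 h2
          rw [h3, Nat.mod_eq_of_lt (by omega)]
        · intro h
          have h3 : n ≡ r [MOD q] := by
            change n % q = r % q
            rw [h, Nat.mod_eq_of_lt (by omega)]
          have h4 : (n + 1) % q = (r + 1) % q := h3.add_right 1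
          rw [h4, Nat.mod_eq_of_lt hr]
      by_cases h : n % q = r
      · rw [if_pos h, if_pos (e.2 h)]
      · rw [if_neg h, if_neg fun h' => h (e.1 h')]
  have h2 : ∑ r ∈ range q, Lam V (fun n => if n % q = r then (1 : ℝ) else 0) = 1 := by
    rw [← lam_sum V (range q) (fun r n => if n % q = r then (1 : ℝ) else 0) 1 fun r _ n => hb r n]
    have e : (fun n => ∑ r ∈ range q, if n % q = r then (1 : ℝ) else 0) = fun _ => 1 := by
      funext n
      rw [Finset.sum_ite_eq, if_pos (Finset.mem_range.2 (Nat.mod_lt _ hq))]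
    rw [e]
    exact lam_const V hV 1
  rw [Finset.sum_congr rfl fun r hr => h1 r (Finset.mem_range.1 hr), Finset.sum_const,
    Finset.card_range, nsmul_eq_mul] at h2
  have hq0 : (q : ℝ) ≠ 0 := by positivity
  rw [h1 r hr, eq_div_iff hq0, mul_comm]
  exact h2

theorem lam_dvd (V : Ultrafilter ℕ) (hV : (V : Filter ℕ) ≤ atTop) (q i : ℕ) (hq : 1 ≤ q) :
    Lam V (fun n => if q ∣ n + i then 1 else 0) = 1 / (q : ℝ) := by
  have h1 := lam_shift V hV (fun n => if q ∣ n then (1 : ℝ) else 0) 1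
    (fun n => by split_ifs <;> simp) i
  rw [h1, ← lam_mod V hV q 0 hq (by omega)]
  congr 1
  funext n
  by_cases h : q ∣ n
  · rw [if_pos h, if_pos (Nat.mod_eq_zero_of_dvd h)]
  · rw [if_neg h, if_neg fun h' => h (Nat.dvd_of_mod_eq_zero h')]

end Pool.Agent.Lib.MP_3e612f_nt.ZE
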