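import Pool.Agent.Lib.MP_3e612f_nt.ZE.A.Lam2
import Pool.Agent.Lib.MP_3e612f_nt.ZE.A.Ent

/-! Laws of finite valued functions with respect to the logarithmic mean. -/

set_option autoImplicit false

namespace Pool.Agent.Lib.MP_3e612f_nt.ZE

open Finset MeasureTheory Filter Topology

private theorem law_ind_le {α : Type} (f : ℕ → α) (a : α) (n : ℕ) [Decidable (f n = a)] :
    |(if f n = a then (1 : ℝ) else 0)| ≤ 1 := by
  split_ifs
  · rw [abs_one]
  · rw [abs_zero]
    exact zero_le_one

private theorem law_def {α : Type} (V : Ultrafilter ℕ) (f : ℕ → α) (a : α)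
    [∀ n, Decidable (f n = a)] :
    law V f a = Lam V (fun n => if f n = a then (1 : ℝ) else 0) := by
  unfold law
  congr 1
  funext n
  by_cases h : f n = a
  · rw [if_pos h, if_pos h]
  · rw [if_neg h, if_neg h]

private theorem law_congr {α β : Type} (V : Ultrafilter ℕ) (f : ℕ → α) (a : α) (g : ℕ → β) (b : β)
    (h : ∀ n, f n = a ↔ g n = b) : law V f a = law V g b := by
  unfold law
  congr 1
  funext n
  by_cases h' : f n = a
  · rw [if_pos h', if_pos ((h n).1 h')]
  · rw [if_neg h', if_neg fun h2 => h' ((h n).2 h2)]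

private theorem law_zero_fun (V : Ultrafilter ℕ) : Lam V (fun _ => 0) = 0 := by
  have h := lam_smul V 0 (fun _ => (0 : ℝ)) 0 (fun n => by rw [abs_zero])
  simpa only [zero_mul] using h

theorem law_nonneg {α : Type} (V : Ultrafilter ℕ) (f : ℕ → α) (a : α) : 0 ≤ law V f a := by
  classical
  have h := lam_mono V (fun _ => 0) (fun n => if f n = a then 1 else 0) 1
    (fun n => by rw [abs_zero]; exact zero_le_one)
    (fun n => by
      split_ifs
      · rw [abs_one]
      · rw [abs_zero]
        exact zero_le_one)
    (fun n => by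
      split_ifs
      · exact zero_le_one
      · exact le_rfl)
  rw [law_zero_fun] at h
  exact h.trans_eq (law_def V f a).symm

/-- expectation of a function of a finite valued function -/
theorem lam_comp {α : Type} [Fintype α] (V : Ultrafilter ℕ) (f : ℕ → α) (G : α → ℝ) : Lam V (fun n => G (f n)) = ∑ a, law V f a * G a := by
  classical
  have e : (fun n => G (f n)) = fun n => ∑ a, G a * (if f n = a then (1 : ℝ) else 0) := by
    funext n
    simp
  have h1 : ∀ a : α, ∀ n, |G a * (if f n = a then (1 : ℝ) else 0)| ≤ ∑ b, |G b| := by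
    intro a n
    rw [abs_mul]
    have h2 : |G a| ≤ ∑ b, |G b| := Finset.single_le_sum (f := fun b => |G b|)
      (fun b _ => abs_nonneg _) (Finset.mem_univ a)
    have h3 : |(if f n = a then (1 : ℝ) else 0)| ≤ 1 := by
      split_ifs
      · rw [abs_one]
      · rw [abs_zero]
        exact zero_le_one
    calc |G a| * |(if f n = a then (1 : ℝ) else 0)| ≤ |G a| * 1 :=
          mul_le_mul_of_nonneg_left h3 (abs_nonneg _)
      _ ≤ ∑ b, |G b| := by rw [mul_one]; exact h2
  rw [e, lam_sum V Finset.univ (fun a n => G a * (if f n = a then (1 : ℝ) else 0)) _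
    (fun a _ => h1 a)]
  refine Finset.sum_congr rfl fun a _ => ?_
  rw [lam_smul V (G a) (fun n => if f n = a then (1 : ℝ) else 0) 1 (fun n => by
    split_ifs
    · rw [abs_one]
    · rw [abs_zero]
      exact zero_le_one), mul_comm, law_def V f a]

theorem law_sum {α : Type} [Fintype α] (V : Ultrafilter ℕ) (hV : (V : Filter ℕ) ≤ atTop) (f : ℕ → α) : ∑ a, law V f a = 1 := by
  have h := lam_comp V f (fun _ => 1)
  rw [lam_const V hV 1] at h
  simp only [mul_one] at h
  exact h.symm

theorem law_fst {α β : Type} [Fintype β] (V : Ultrafilter ℕ) (f : ℕ → α) (g : ℕ → β) (a : α) : ∑ b, law V (fun n => (f n, g n)) (a, b) = law V f a := by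
  classical
  rw [Finset.sum_congr rfl fun b _ => law_def V (fun n => (f n, g n)) (a, b), law_def V f a,
    ← lam_sum V Finset.univ
    (fun b n => if (f n, g n) = (a, b) then (1 : ℝ) else 0) 1
    (fun b _ n => law_ind_le (fun n => (f n, g n)) (a, b) n)]
  congr 1
  funext n
  by_cases h : f n = a
  · rw [if_pos h, Finset.sum_eq_single (g n)]
    · rw [if_pos (by rw [h])]
    · intro b _ hb
      rw [if_neg]
      intro h2
      exact hb (congrArg Prod.snd h2).symm
    · intro h2
      exact absurd (Finset.mem_univ _) h2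
  · rw [if_neg h]
    refine Finset.sum_eq_zero fun b _ => ?_
    rw [if_neg]
    intro h2
    exact h (congrArg Prod.fst h2)

theorem law_snd {α β : Type} [Fintype α] (V : Ultrafilter ℕ) (f : ℕ → α) (g : ℕ → β) (b : β) : ∑ a, law V (fun n => (f n, g n)) (a, b) = law V g b := by
  have h1 : ∀ a, law V (fun n => (f n, g n)) (a, b) = law V (fun n => (g n, f n)) (b, a) := by
    intro a
    refine law_congr V _ _ _ _ fun n => ?_
    rw [Prod.mk.injEq, Prod.mk.injEq, and_comm]
  rw [Finset.sum_congr rfl fun a _ => h1 a]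
  exact law_fst V g f b

theorem law_shift {α : Type} (V : Ultrafilter ℕ) (hV : (V : Filter ℕ) ≤ atTop) (f : ℕ → α) (k : ℕ) : law V (fun n => f (n + k)) = law V f := by
  classical
  funext a
  rw [law_def V (fun n => f (n + k)) a, law_def V f a]
  exact lam_shift V hV (fun n => if f n = a then (1 : ℝ) else 0) 1 (fun n => law_ind_le f a n) k

/-- an injective image has the same entropy -/
theorem ent_law_inj {α β : Type} [Fintype α] [Fintype β] (V : Ultrafilter ℕ) (f : ℕ → α) (e : α → β) (he : Function.Injective e) :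
    ent (law V (fun n => e (f n))) = ent (law V f) := by
  classical
  unfold ent
  have h1 : ∀ a, law V (fun n => e (f n)) (e a) = law V f a := by
    intro a
    exact law_congr V _ _ _ _ fun n => he.eq_iff
  have h2 : ∀ b, b ∉ Finset.univ.image e → law V (fun n => e (f n)) b = 0 := by
    intro b hb
    rw [law_def V _ b]
    have h3 : (fun n => if e (f n) = b then (1 : ℝ) else 0) = fun _ => 0 := by
      funext n
      rw [if_neg]
      rintro rfl
      exact hb (Finset.mem_image_of_mem e (Finset.mem_univ _))
    rw [h3, law_zero_fun]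
  rw [← Finset.sum_subset (Finset.subset_univ (Finset.univ.image e))
    (fun b _ hb => by rw [h2 b hb, Real.negMulLog_zero]), Finset.sum_image (fun a _ b _ h => he h)]
  exact Finset.sum_congr rfl fun a _ => by rw [h1 a]

theorem ent_law_ssa {α β γ : Type} [Fintype α] [Fintype β] [Fintype γ] (V : Ultrafilter ℕ) (f : ℕ → α) (g : ℕ → β) (h : ℕ → γ) :
    ent (law V (fun n => (f n, g n, h n))) + ent (law V h) ≤ ent (law V (fun n => (f n, h n))) + ent (law V (fun n => (g n, h n))) := by
  have h0 := ent_ssa (law V (fun n => (f n, g n, h n))) (law_nonneg V _)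
  have e1 : ∀ (b : β) (c : γ), ∑ a, law V (fun n => (f n, g n, h n)) (a, b, c) =
      law V (fun n => (g n, h n)) (b, c) := fun b c =>
    law_snd V f (fun n => (g n, h n)) (b, c)
  have e2 : (fun c => ∑ a, ∑ b, law V (fun n => (f n, g n, h n)) (a, b, c)) = law V h := by
    funext c
    rw [Finset.sum_comm, Finset.sum_congr rfl fun b _ => e1 b c]
    exact law_snd V g h c
  have e3 : (fun q : α × γ => ∑ b, law V (fun n => (f n, g n, h n)) (q.1, b, q.2)) =
      law V (fun n => (f n, h n)) := by
    funext q
    have h1 : ∀ b, law V (fun n => (f n, g n, h n)) (q.1, b, q.2) =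
        law V (fun n => (g n, f n, h n)) (b, q) := by
      intro b
      refine law_congr V _ _ _ _ fun n => ?_
      obtain ⟨a, c⟩ := q
      simp only [Prod.mk.injEq]
      exact and_left_comm
    rw [Finset.sum_congr rfl fun b _ => h1 b]
    exact law_snd V g (fun n => (f n, h n)) q
  have e4 : (fun q : β × γ => ∑ a, law V (fun n => (f n, g n, h n)) (a, q.1, q.2)) =
      law V (fun n => (g n, h n)) := by
    funext q
    exact e1 q.1 q.2
  rw [e2, e3, e4] at h0
  exact h0

theorem ent_law_le_pair {α β : Type} [Fintype α] [Fintype β] (V : Ultrafilter ℕ) (f : ℕ → α) (g : ℕ → β) :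
    ent (law V f) ≤ ent (law V (fun n => (f n, g n))) := by
  have h0 := ent_marg_le (law V (fun n => (f n, g n))) (law_nonneg V _)
  have e : (fun a => ∑ b, law V (fun n => (f n, g n)) (a, b)) = law V f := by
    funext a
    exact law_fst V f g a
  rwa [e] at h0

theorem ent_law_le_card {α : Type} [Fintype α] [Nonempty α] (V : Ultrafilter ℕ) (hV : (V : Filter ℕ) ≤ atTop) (f : ℕ → α) : ent (law V f) ≤ Real.log (Fintype.card α) :=
  ent_le_log_card (law V f) (law_nonneg V f) (law_sum V hV f)

theorem ent_law_nonneg {α : Type} [Fintype α] (V : Ultrafilter ℕ) (f : ℕ → α) : 0 ≤ ent (law V f) := by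
  classical
  refine ent_nonneg (law V f) (law_nonneg V f) fun a => ?_
  rw [law_def V f a]
  exact (le_abs_self _).trans (lam_abs_le V (fun n => if f n = a then (1 : ℝ) else 0) 1
    (fun n => law_ind_le f a n))

end Pool.Agent.Lib.MP_3e612f_nt.ZE
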