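import Pool.Agent.Lib.MP_3e612f_nt.ZE.A.Diff
import Pool.Agent.Lib.MP_3e612f_nt.ZE.A.Iter
import Pool.Agent.Lib.MP_3e612f_nt.ZE.B.Cheb

/-! Theorem A: Tao's identity for the Moebius function. -/

set_option autoImplicit false

namespace Pool.Agent.Lib.MP_3e612f_nt.ZE

open Finset MeasureTheory Filter Topology

private theorem Tao_log_QQ (P : ℕ) (hP : 1 ≤ P) :
    Real.log (QQ P) ≤ (PP P).card * Real.log (4 * P) := by
  have h1 : QQ P ≤ (4 * P) ^ (PP P).card := by
    unfold QQ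
    refine (Finset.prod_le_pow_card _ _ (4 * P) fun p hp => ?_)
    exact (Finset.mem_Ioc.1 (Finset.mem_filter.1 hp).1).2
  have h2 : (0 : ℝ) < (QQ P : ℝ) := by
    have := NeZero.ne (QQ P)
    exact_mod_cast Nat.pos_of_ne_zero this
  have h3 : ((QQ P : ℕ) : ℝ) ≤ ((4 : ℝ) * P) ^ (PP P).card := by exact_mod_cast h1
  refine (Real.log_le_log h2 h3).trans (le_of_eq ?_)
  rw [Real.log_pow]

/-- (A4): if the information is large then the entropy per letter drops. `ent_blocks` with `L' = 4PJ`, `Q = QQ P`: `ent(win(kL'))/(kL') ≤ ent(win L')/L' - info/L' + log Q/(kL')`, `log Q ≤ |PP| log (4P)`; `k = ⌈72 log(4P)/ε²⌉`. -/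
theorem drop (V : Ultrafilter ℕ) (hV : (V : Filter ℕ) ≤ atTop) (J : ℕ) (hJ : 1 ≤ J) (ε : ℝ) (hε : 0 < ε) (hε1 : ε ≤ 1) :
    ∃ b c : ℝ, 0 < b ∧ 0 < c ∧ ∃ P₀ : ℕ, 2 ≤ P₀ ∧ ∀ P ≥ P₀, ε ^ 2 * (PP P).card / 36 < info V (4 * P * J) (QQ P) →
      ∃ k : ℕ, 1 ≤ k ∧ (k : ℝ) ≤ b * Real.log P ∧
        ent (law V (win (4 * (k * P) * J))) / (4 * (k * P) * J) ≤ ent (law V (win (4 * P * J))) / (4 * P * J) - c / Real.log P := by
  obtain ⟨P₁, h16, hP₁⟩ := card_PP_ge
  have hJ0 : (0 : ℝ) < (J : ℝ) := by exact_mod_cast hJ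
  refine ⟨144 / ε ^ 2 + 1, ε ^ 2 / (576 * J), by positivity, by positivity, P₁, by omega,
    fun P hP hinfo => ?_⟩
  have hP16 : 16 ≤ P := h16.trans hP
  have hPr : (16 : ℝ) ≤ (P : ℝ) := by exact_mod_cast hP16
  have hP0 : (0 : ℝ) < (P : ℝ) := by linarith
  have hcard := hP₁ P hP
  have hlog1 : 1 ≤ Real.log P := by
    have h1 : Real.exp 1 ≤ (P : ℝ) := by
      linarith [Real.exp_one_lt_d9]
    rw [Real.le_log_iff_exp_le hP0]
    exact h1
  have hlog0 : 0 < Real.log P := by linarith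
  have hlog4 : Real.log (4 * P) ≤ 2 * Real.log P := by
    have h1 : (4 : ℝ) * P ≤ (P : ℝ) ^ 2 := by nlinarith
    have h2 := Real.log_le_log (by positivity) h1
    rw [Real.log_pow] at h2
    exact_mod_cast h2
  have hlog4' : 0 < Real.log (4 * P) := Real.log_pos (by linarith)
  set k : ℕ := ⌈72 * Real.log (4 * P) / ε ^ 2⌉₊ with hk
  have hkpos : 0 < 72 * Real.log (4 * P) / ε ^ 2 := by positivity
  have hk1 : 1 ≤ k := Nat.one_le_iff_ne_zero.2 (Nat.ceil_pos.2 hkpos).ne'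
  have hkr : 72 * Real.log (4 * P) / ε ^ 2 ≤ (k : ℝ) := Nat.le_ceil _
  have hk0 : (0 : ℝ) < (k : ℝ) := by exact_mod_cast hk1
  refine ⟨k, hk1, ?_, ?_⟩
  · have h1 : (k : ℝ) < 72 * Real.log (4 * P) / ε ^ 2 + 1 := Nat.ceil_lt_add_one hkpos.le
    have h2 : 72 * Real.log (4 * P) / ε ^ 2 ≤ 144 / ε ^ 2 * Real.log P := by
      rw [div_mul_eq_mul_div]
      refine div_le_div_of_nonneg_right ?_ (by positivity)
      linarith
    have h3 : (144 / ε ^ 2 + 1) * Real.log P = 144 / ε ^ 2 * Real.log P + Real.log P := by ring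
    rw [h3]
    linarith
  · have hb := ent_blocks V hV (4 * P * J) k (QQ P)
    have he : k * (4 * P * J) = 4 * (k * P) * J := by ring
    rw [he] at hb
    have hQ := Tao_log_QQ P (by omega)
    have hm := ent_mod V hV (QQ P)
    have hinfo' : info V (4 * P * J) (QQ P) = ent (law V (win (4 * P * J))) +
        ent (law V (fun n => (n : ZMod (QQ P)))) -
        ent (law V (fun n => (win (4 * P * J) n, (n : ZMod (QQ P))))) := rfl
    generalize ent (law V (win (4 * (k * P) * J))) = A at hb ⊢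
    generalize ent (law V (win (4 * P * J))) = B at hinfo' ⊢
    generalize ent (law V (fun n => (n : ZMod (QQ P)))) = R at hb hm hinfo'
    generalize ent (law V (fun n => (win (4 * P * J) n, (n : ZMod (QQ P))))) = T at hb hinfo'
    generalize info V (4 * P * J) (QQ P) = I at hinfo hinfo'
    generalize ((PP P).card : ℝ) = N at hcard hinfo hQ
    have hN0 : 0 ≤ N := le_trans (by positivity) hcard
    have hA : A ≤ N * Real.log (4 * P) + k * (B - ε ^ 2 * N / 36) := by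
      have h1 : T - R = B - I := by linarith
      rw [h1] at hb
      have h2 : (k : ℝ) * (B - I) ≤ k * (B - ε ^ 2 * N / 36) :=
        mul_le_mul_of_nonneg_left (by linarith) hk0.le
      linarith
    have hNk : N * Real.log (4 * P) ≤ k * (ε ^ 2 * N / 72) := by
      have h1 : 72 * Real.log (4 * P) ≤ k * ε ^ 2 := by
        rwa [div_le_iff₀ (by positivity)] at hkr
      nlinarith
    have hA' : A ≤ k * (B - ε ^ 2 * N / 72) := by
      have : (k : ℝ) * (ε ^ 2 * N / 72) + k * (B - ε ^ 2 * N / 36) =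
        k * (B - ε ^ 2 * N / 72) := by ring
      linarith
    have hD : (0 : ℝ) < 4 * P * J := by positivity
    have h5 : A / (4 * (k * P) * J) ≤ (B - ε ^ 2 * N / 72) / (4 * P * J) := by
      rw [div_le_div_iff₀ (by positivity) hD]
      have := mul_le_mul_of_nonneg_right hA' hD.le
      calc A * (4 * P * J) ≤ k * (B - ε ^ 2 * N / 72) * (4 * P * J) := this
        _ = (B - ε ^ 2 * N / 72) * (4 * (k * P) * J) := by ring
    refine h5.trans ?_
    rw [sub_div]
    have h6 : ε ^ 2 / (576 * J) / Real.log P ≤ ε ^ 2 * N / 72 / (4 * P * J) := by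
      have h7 : ε ^ 2 / (576 * J) / Real.log P =
          ε ^ 2 * (P / (2 * Real.log P)) / 72 / (4 * P * J) := by
        field_simp
        ring
      rw [h7]
      gcongr
    linarith

/-- Theorem A. -/
theorem tao (V : Ultrafilter ℕ) (hV : (V : Filter ℕ) ≤ atTop) (J : ℕ) (hJ : 1 ≤ J) (φ : (Fin J → ℤ) → ℝ) (hφ : ∀ v, φ (fun j => - v j) = φ v) (hb : ∀ v, |φ v| ≤ 1)
    (ε : ℝ) (hε : 0 < ε) (P₀ : ℕ) :
    ∃ P ≥ P₀, |Lam V (fun n => φ (fun j => ArithmeticFunction.moebius (n + j))) - pav P (fun p => Lam V (fun n => φ (fun j => ArithmeticFunction.moebius (n + p * j))))| ≤ ε := by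
  set e : ℝ := min ε 1 / 2 with he
  have he0 : 0 < e := by
    have : 0 < min ε 1 := lt_min hε one_pos
    rw [he]
    linarith
  have he1 : e ≤ 1 := by
    have : min ε 1 ≤ 1 := min_le_right _ _
    rw [he]
    linarith
  have he2 : e + e ≤ ε := by
    have : min ε 1 ≤ ε := min_le_left _ _
    rw [he]
    linarith
  obtain ⟨b, c, hb0, hc0, P₁, -, h₁⟩ := drop V hV J hJ e he0 he1
  obtain ⟨P₂, h₂⟩ := PP_nonempty
  set P₃ : ℕ := ⌈2 * J / e⌉₊ with hP₃
  set Pm : ℕ := max P₀ (max P₁ (max P₂ (max P₃ 1))) with hPm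
  have hm0 : P₀ ≤ Pm := le_max_left _ _
  have hm1 : P₁ ≤ Pm := (le_max_left _ _).trans (le_max_right _ _)
  have hm2 : P₂ ≤ Pm := (le_max_left _ _).trans ((le_max_right _ _).trans (le_max_right _ _))
  have hm3 : P₃ ≤ Pm := (le_max_left _ _).trans ((le_max_right _ _).trans
    ((le_max_right _ _).trans (le_max_right _ _)))
  have hm4 : 1 ≤ Pm := (le_max_right _ _).trans ((le_max_right _ _).trans
    ((le_max_right _ _).trans (le_max_right _ _)))
  have hex : ∃ P ≥ Pm, info V (4 * P * J) (QQ P) ≤ e ^ 2 * (PP P).card / 36 := by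
    by_contra hcon
    push Not at hcon
    refine iter_false (fun P => ent (law V (win (4 * P * J))) / (4 * P * J)) (fun P => ?_) b c
      hb0 hc0 Pm fun P hP => ?_
    · exact div_nonneg (ent_law_nonneg V _) (by positivity)
    · obtain ⟨k, hk1, hk2, hk3⟩ := h₁ P (hm1.trans hP) (hcon P hP)
      refine ⟨k, hk1, hk2, ?_⟩
      have hcast : ((k * P : ℕ) : ℝ) = (k : ℝ) * P := Nat.cast_mul _ _
      rw [hcast]
      exact hk3
  obtain ⟨P, hP, hinfo⟩ := hex
  refine ⟨P, hm0.trans hP, ?_⟩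
  have hne := h₂ P (hm2.trans hP)
  have hN0 : (0 : ℝ) < ((PP P).card : ℝ) := by exact_mod_cast hne.card_pos
  have hP0 : (0 : ℝ) < (P : ℝ) := by exact_mod_cast (hm4.trans hP)
  refine (diff_le V hV J hJ φ hφ hb P (hm4.trans hP) hne e he0).trans ?_
  have h3 : 18 * info V (4 * P * J) (QQ P) / (e * (PP P).card) ≤ e / 2 := by
    rw [div_le_iff₀ (by positivity)]
    have h4 : 18 * (e ^ 2 * (PP P).card / 36) = e / 2 * (e * (PP P).card) := by ring
    linarith
  have h5 : 2 * (J : ℝ) / P ≤ e := by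
    have h6 : 2 * (J : ℝ) / e ≤ (P : ℝ) := by
      have h7 : ((⌈2 * (J : ℝ) / e⌉₊ : ℕ) : ℝ) ≤ (P : ℝ) := Nat.cast_le.2 (hm3.trans hP)
      exact (Nat.le_ceil _).trans h7
    rw [div_le_iff₀ he0] at h6
    rw [div_le_iff₀ hP0]
    linarith
  linarith

end Pool.Agent.Lib.MP_3e612f_nt.ZE
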