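import Pool.Agent.Lib.MP_3e612f_nt.ZE.A.Zf
import Pool.Agent.Lib.MP_3e612f_nt.ZE.A.Lam2

/-! The dilation identity for the Moebius function. -/

set_option autoImplicit false

namespace Pool.Agent.Lib.MP_3e612f_nt.ZE

open Finset MeasureTheory Filter Topology

private theorem zLam_sub (V : Ultrafilter ℕ) (F G : ℕ → ℝ) (C : ℝ) (hF : ∀ n, |F n| ≤ C)
    (hG : ∀ n, |G n| ≤ C) : Lam V (fun n => F n - G n) = Lam V F - Lam V G := by
  have h1 : (fun n => F n - G n) = fun n => F n + (-1 : ℝ) * G n := by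
    funext n
    ring
  rw [h1, lam_add V F (fun n => (-1 : ℝ) * G n) C hF (fun n => by
    rw [abs_mul, abs_neg, abs_one, one_mul]
    exact hG n), lam_smul V (-1) G C hG]
  ring

private theorem zLam_mu {p : ℕ} (hp : p.Prime) {m : ℕ} (hm : ¬ p ∣ m) :
    ArithmeticFunction.moebius (p * m) = - ArithmeticFunction.moebius m := by
  have hco : Nat.Coprime p m := (Nat.Prime.coprime_iff_not_dvd hp).2 hm
  rw [ArithmeticFunction.isMultiplicative_moebius.map_mul_of_coprime hco,
    ArithmeticFunction.moebius_apply_prime hp]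
  ring

/-- (A1), (A2). With `F'(n) = φ((μ(n+pj))_j)`: `Lam(Z) = (1/L) ∑_i [Lam(F'(n+i) p 1_{p ∣ n+i}) - Lam(F'(n+i))] = Lam(F'(n) p 1_{p ∣ n}) - Lam(F')` (`lam_shift`, `lam_sum`), and `Lam(n ↦ p 1_{p ∣ n} F'(n)) = Lam(n ↦ F'(pn))` (`lam_dil` for `n ↦ F'(pn)`),
`F'(pn) = φ((μ(p(n+j)))_j)`, `μ(p(n+j)) = -μ(n+j)` unless `p ∣ n+j` (`ArithmeticFunction.isMultiplicative_moebius`), `φ` even; the `n` with `p ∣ n + j` for some `j < J` have mean at most `J/p` (`lam_dvd`). -/
theorem z_lam (V : Ultrafilter ℕ) (hV : (V : Filter ℕ) ≤ atTop) (J : ℕ) (φ : (Fin J → ℤ) → ℝ) (hφ : ∀ v, φ (fun j => - v j) = φ v) (hb : ∀ v, |φ v| ≤ 1)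
    (L p : ℕ) (hL : 1 ≤ L) (hp : p.Prime) :
    |Lam V (fun n => φ (fun j => ArithmeticFunction.moebius (n + j))) - Lam V (fun n => φ (fun j => ArithmeticFunction.moebius (n + p * j))) -
      Lam V (fun n => Zf J φ L p (fun i => ArithmeticFunction.moebius (n + i)) n)| ≤ 2 * J / p := by
  have hp0 : (0 : ℝ) < p := by exact_mod_cast hp.pos
  have hL0 : (0 : ℝ) < L := by exact_mod_cast hL
  set F : ℕ → ℝ := fun n => φ (fun j => ArithmeticFunction.moebius (n + j)) with hF
  set F' : ℕ → ℝ := fun n => φ (fun j => ArithmeticFunction.moebius (n + p * j)) with hF'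
  let H : ℕ → ℝ := fun n => F' (p * n)
  let G : ℕ → ℝ := fun n => if p ∣ n then (p : ℝ) * H (n / p) else 0
  have bF : ∀ n, |F n| ≤ 1 := fun n => hb _
  have bF' : ∀ n, |F' n| ≤ 1 := fun n => hb _
  have bH : ∀ n, |H n| ≤ 1 := fun n => hb _
  have bG : ∀ n, |G n| ≤ p := by
    intro n
    change |if p ∣ n then (p : ℝ) * H (n / p) else 0| ≤ p
    split_ifs
    · rw [abs_mul, Nat.abs_cast]
      exact mul_le_of_le_one_right hp0.le (bH _)
    · rw [abs_zero]
      exact hp0.le
  have hGF : ∀ m, G m = F' m * (if p ∣ m then (p : ℝ) else 0) := by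
    intro m
    change (if p ∣ m then (p : ℝ) * F' (p * (m / p)) else 0) = _
    split_ifs with h
    · rw [Nat.mul_div_cancel' h, mul_comm]
    · rw [mul_zero]
  -- the mean of `Z`
  have hZ : (fun n => Zf J φ L p (fun i => ArithmeticFunction.moebius (n + i)) n) =
      fun n => (1 / (L : ℝ)) * ∑ i ∈ range L, (G (n + i) - F' (n + i)) := by
    funext n
    unfold Zf
    rw [div_eq_mul_one_div, mul_comm]
    congr 1
    refine Finset.sum_congr rfl fun i _ => ?_
    rw [hGF, ← mul_sub_one]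
    congr 1
    change φ (fun j => ArithmeticFunction.moebius (n + (i + p * j))) =
      φ (fun j => ArithmeticFunction.moebius (n + i + p * j))
    congr 1
    funext j
    rw [add_assoc]
  have b1 : ∀ i n, |G (n + i) - F' (n + i)| ≤ (p : ℝ) + 1 := by
    intro i n
    have h1 := abs_sub (G (n + i)) (F' (n + i))
    have h2 := bG (n + i)
    have h3 := bF' (n + i)
    linarith
  have hLZ : Lam V (fun n => Zf J φ L p (fun i => ArithmeticFunction.moebius (n + i)) n) =
      Lam V H - Lam V F' := by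
    rw [hZ, lam_smul V (1 / (L : ℝ)) (fun n => ∑ i ∈ range L, (G (n + i) - F' (n + i)))
      (L * ((p : ℝ) + 1)) (fun n => ?_)]
    · rw [lam_sum V (range L) (fun i n => G (n + i) - F' (n + i)) ((p : ℝ) + 1)
        (fun i _ n => b1 i n)]
      have h1 : ∀ i ∈ range L, Lam V (fun n => G (n + i) - F' (n + i)) = Lam V H - Lam V F' := by
        intro i _
        rw [zLam_sub V (fun n => G (n + i)) (fun n => F' (n + i)) ((p : ℝ) + 1)
          (fun n => (bG _).trans (by linarith)) (fun n => (bF' _).trans (by linarith)),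
          lam_shift V hV G p bG i, lam_shift V hV F' 1 bF' i]
        congr 1
        exact lam_dil V hV H 1 bH p hp.one_le
      rw [Finset.sum_congr rfl h1, Finset.sum_const, card_range, nsmul_eq_mul]
      field_simp
    · refine (Finset.abs_sum_le_sum_abs _ _).trans ?_
      refine (Finset.sum_le_sum fun i _ => b1 i n).trans ?_
      rw [Finset.sum_const, card_range, nsmul_eq_mul]
  -- comparison of `F` and `H`
  let D : ℕ → ℝ := fun n => ∑ j : Fin J, (2 : ℝ) * (if p ∣ n + (j : ℕ) then 1 else 0)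
  have bind : ∀ (j : Fin J) (n : ℕ), |(if p ∣ n + (j : ℕ) then (1 : ℝ) else 0)| ≤ 1 := by
    intro j n
    split_ifs
    · rw [abs_one]
    · rw [abs_zero]
      exact zero_le_one
  have bind2 : ∀ (j : Fin J) (n : ℕ), |(2 : ℝ) * (if p ∣ n + (j : ℕ) then (1 : ℝ) else 0)| ≤ 2 := by
    intro j n
    rw [abs_mul, abs_two]
    have := bind j n
    linarith
  have hLD : Lam V D = 2 * J / p := by
    change Lam V (fun n => ∑ j : Fin J, (2 : ℝ) * (if p ∣ n + (j : ℕ) then 1 else 0)) = _
    rw [lam_sum V Finset.univ (fun (j : Fin J) n => (2 : ℝ) * (if p ∣ n + (j : ℕ) then 1 else 0)) 2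
      (fun j _ n => bind2 j n)]
    have h1 : ∀ j ∈ (Finset.univ : Finset (Fin J)),
        Lam V (fun n => (2 : ℝ) * (if p ∣ n + (j : ℕ) then 1 else 0)) = 2 * (1 / (p : ℝ)) := by
      intro j _
      rw [lam_smul V 2 (fun n => if p ∣ n + (j : ℕ) then 1 else 0) 1 (fun n => bind j n),
        lam_dvd V hV p j hp.one_le]
    rw [Finset.sum_congr rfl h1, Finset.sum_const, Finset.card_univ, Fintype.card_fin, nsmul_eq_mul]
    ring
  have hDn : ∀ n, 0 ≤ D n := by
    intro n
    refine Finset.sum_nonneg fun j _ => ?_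
    split_ifs <;> norm_num
  have bD : ∀ n, |D n| ≤ 2 * J := by
    intro n
    refine (Finset.abs_sum_le_sum_abs _ _).trans ?_
    refine (Finset.sum_le_sum fun j _ => bind2 j n).trans ?_
    rw [Finset.sum_const, Finset.card_univ, Fintype.card_fin, nsmul_eq_mul]
    linarith
  have hFH : ∀ n, |F n - H n| ≤ D n := by
    intro n
    by_cases hn : ∃ j : Fin J, p ∣ n + (j : ℕ)
    · obtain ⟨j, hj⟩ := hn
      have h1 : |F n - H n| ≤ 2 := by
        have h1 := abs_sub (F n) (H n)
        have h2 := bF n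
        have h3 := bH n
        linarith
      refine h1.trans ?_
      have h2 : (2 : ℝ) * (if p ∣ n + (j : ℕ) then 1 else 0) ≤ D n := by
        refine Finset.single_le_sum (f := fun j : Fin J => (2 : ℝ) * (if p ∣ n + (j : ℕ) then 1 else 0))
          (fun i _ => ?_) (Finset.mem_univ j)
        split_ifs <;> norm_num
      rw [if_pos hj, mul_one] at h2
      exact h2
    · have hn' : ∀ j : Fin J, ¬ p ∣ n + (j : ℕ) := fun j hj => hn ⟨j, hj⟩
      have h1 : H n = F n := by
        change φ (fun j => ArithmeticFunction.moebius (p * n + p * j)) =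
          φ (fun j => ArithmeticFunction.moebius (n + j))
        rw [← hφ]
        congr 1
        funext j
        rw [← mul_add, zLam_mu hp (hn' j), neg_neg]
      rw [h1, sub_self, abs_zero]
      exact hDn n
  rw [hLZ]
  have h0 : Lam V F - Lam V F' - (Lam V H - Lam V F') = Lam V F - Lam V H := by ring
  rw [h0, ← zLam_sub V F H 1 bF bH, ← hLD, abs_le]
  have bFH : ∀ n, |F n - H n| ≤ 2 + 2 * J := by
    intro n
    have h1 := (hFH n).trans ((le_abs_self _).trans (bD n))
    linarith
  have bD' : ∀ n, |D n| ≤ 2 + 2 * J := fun n => (bD n).trans (by linarith)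
  constructor
  · have h1 : Lam V (fun n => (-1 : ℝ) * D n) ≤ Lam V (fun n => F n - H n) := by
      refine lam_mono V _ _ (2 + 2 * J) (fun n => ?_) bFH fun n => ?_
      · rw [abs_mul, abs_neg, abs_one, one_mul]
        exact bD' n
      · have := (abs_le.1 (hFH n)).1
        linarith
    rw [lam_smul V (-1) D (2 * J) bD] at h1
    linarith
  · exact lam_mono V _ _ (2 + 2 * J) bFH bD' fun n => (le_abs_self _).trans (hFH n)

end Pool.Agent.Lib.MP_3e612f_nt.ZE
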