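import Pool.Agent.Lib.MP_3e612f_nt.ZE.Defs

/-! The functions `Z_p(x, r)`. -/

set_option autoImplicit false

namespace Pool.Agent.Lib.MP_3e612f_nt.ZE

open Finset MeasureTheory Filter Topology

/-- `Z_p(x, r) = (1/L) ∑_{i<L} φ((x_{i+pj})_j) (p 1_{p ∣ r+i} - 1)` -/
noncomputable def Zf (J : ℕ) (φ : (Fin J → ℤ) → ℝ) (L p : ℕ) (x : ℕ → ℤ) (r : ℕ) : ℝ :=
  (∑ i ∈ range L, φ (fun j => x (i + p * j)) * ((if p ∣ r + i then (p : ℝ) else 0) - 1)) / (L : ℝ)

private theorem Zf_iff {p : ℕ} (hp : 1 ≤ p) (i r : ℕ) (hr : r < p) :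
    p ∣ r + i ↔ r = (p - i % p) % p := by
  have h1 : p ∣ r + i ↔ p ∣ r + i % p := by
    conv_lhs => rw [← Nat.div_add_mod i p]
    rw [show r + (p * (i / p) + i % p) = p * (i / p) + (r + i % p) by ring]
    exact Nat.dvd_add_right (Dvd.intro _ rfl)
  have hm := Nat.mod_lt i (show 0 < p by omega)
  rw [h1]
  generalize i % p = m at hm
  by_cases h0 : m = 0
  · subst h0
    rw [add_zero, Nat.sub_zero, Nat.mod_self]
    constructor
    · intro h
      by_contra hne
      exact absurd (Nat.le_of_dvd (by omega) h) (by omega)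
    · rintro rfl
      exact dvd_zero p
  · rw [Nat.mod_eq_of_lt (show p - m < p by omega)]
    constructor
    · rintro ⟨c, hc⟩
      have h2 : c = 1 := by
        have h3 : 0 < c := by
          rcases Nat.eq_zero_or_pos c with h4 | h4
          · rw [h4] at hc
            omega
          · exact h4
        have h5 : c < 2 := by
          by_contra h6
          have h7 : p * 2 ≤ p * c := Nat.mul_le_mul_left p (by omega)
          omega
        omega
      rw [h2] at hc
      omega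
    · intro h
      exact ⟨1, by omega⟩

private theorem Zf_count {p : ℕ} (hp : 1 ≤ p) (r : ℕ) : ∀ L : ℕ,
    ∑ i ∈ range L, (if p ∣ r + i then (p : ℝ) else 0) ≤ (L : ℝ) + p := by
  intro L
  have h1 : ∑ i ∈ range L, (if p ∣ r + i then (p : ℝ) else 0) =
      (p : ℝ) * ((range L).filter (fun i => p ∣ r + i)).card := by
    rw [← Finset.sum_filter, Finset.sum_const, nsmul_eq_mul, mul_comm]
  have h2 : ((range L).filter (fun i => p ∣ r + i)).card =
      Nat.count (fun i => i ≡ (p - r % p) % p [MOD p]) L := by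
    rw [Nat.count_eq_card_filter_range]
    congr 1
    apply Finset.filter_congr
    intro i _
    have h3 : p ∣ r + i ↔ p ∣ i % p + r := by
      conv_lhs => rw [← Nat.div_add_mod i p]
      rw [show r + (p * (i / p) + i % p) = p * (i / p) + (i % p + r) by ring]
      exact Nat.dvd_add_right (Dvd.intro _ rfl)
    rw [h3, Zf_iff hp r (i % p) (Nat.mod_lt i (by omega))]
    unfold Nat.ModEq
    rw [Nat.mod_mod]
  have h4 := Nat.count_modEq_card L (show 0 < p by omega) ((p - r % p) % p)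
  have h5 : ((range L).filter (fun i => p ∣ r + i)).card ≤ L / p + 1 := by
    rw [h2, h4]
    split_ifs <;> omega
  have h6 : p * ((range L).filter (fun i => p ∣ r + i)).card ≤ L + p := by
    refine (Nat.mul_le_mul_left p h5).trans ?_
    rw [mul_add, mul_one]
    exact Nat.add_le_add_right (Nat.mul_div_le L p) p
  rw [h1]
  exact_mod_cast h6

/-- at most `L/p + 1 ≤ 2L/p` of the `i < L` satisfy `p ∣ r + i` -/
theorem Zf_abs (J : ℕ) (φ : (Fin J → ℤ) → ℝ) (hb : ∀ v, |φ v| ≤ 1) (L p : ℕ) (hp : 1 ≤ p) (hpL : p ≤ L) (x : ℕ → ℤ) (r : ℕ) : |Zf J φ L p x r| ≤ 3 := by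
  have hL : (0 : ℝ) < L := by
    have : 0 < L := by omega
    exact_mod_cast this
  unfold Zf
  rw [abs_div, abs_of_pos hL, div_le_iff₀ hL]
  have h1 : |∑ i ∈ range L, φ (fun j => x (i + p * j)) *
      ((if p ∣ r + i then (p : ℝ) else 0) - 1)| ≤
      ∑ i ∈ range L, ((if p ∣ r + i then (p : ℝ) else 0) + 1) := by
    refine (Finset.abs_sum_le_sum_abs _ _).trans (Finset.sum_le_sum fun i _ => ?_)
    rw [abs_mul]
    have h2 : |(if p ∣ r + i then (p : ℝ) else 0) - 1| ≤ (if p ∣ r + i then (p : ℝ) else 0) + 1 := by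
      have h3 : (0 : ℝ) ≤ (if p ∣ r + i then (p : ℝ) else 0) := by
        split_ifs
        · exact Nat.cast_nonneg p
        · exact le_rfl
      rw [abs_le]
      constructor <;> linarith
    calc |φ (fun j => x (i + p * j))| * |(if p ∣ r + i then (p : ℝ) else 0) - 1|
        ≤ 1 * |(if p ∣ r + i then (p : ℝ) else 0) - 1| :=
          mul_le_mul_of_nonneg_right (hb _) (abs_nonneg _)
      _ = |(if p ∣ r + i then (p : ℝ) else 0) - 1| := one_mul _
      _ ≤ _ := h2
  refine h1.trans ?_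
  rw [Finset.sum_add_distrib, Finset.sum_const, Finset.card_range, nsmul_eq_mul, mul_one]
  have h4 := Zf_count hp r L
  have h5 : (p : ℝ) ≤ L := by exact_mod_cast hpL
  linarith

/-- for each `i` exactly one `r < p` has `p ∣ r + i` -/
theorem Zf_sum (J : ℕ) (φ : (Fin J → ℤ) → ℝ) (L p : ℕ) (hp : 1 ≤ p) (x : ℕ → ℤ) : ∑ r ∈ range p, Zf J φ L p x r = 0 := by
  unfold Zf
  rw [← Finset.sum_div, Finset.sum_comm]
  have h1 : ∀ i ∈ range L, ∑ r ∈ range p, φ (fun j => x (i + p * j)) *
      ((if p ∣ r + i then (p : ℝ) else 0) - 1) = 0 := by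
    intro i _
    rw [← Finset.mul_sum, Finset.sum_sub_distrib, Finset.sum_const, Finset.card_range,
      nsmul_eq_mul, mul_one]
    have h2 : ∑ r ∈ range p, (if p ∣ r + i then (p : ℝ) else 0) =
        ∑ r ∈ range p, (if r = (p - i % p) % p then (p : ℝ) else 0) := by
      refine Finset.sum_congr rfl fun r hr => ?_
      rw [if_congr (Zf_iff hp i r (Finset.mem_range.1 hr)) rfl rfl]
    rw [h2, Finset.sum_ite_eq', if_pos (Finset.mem_range.2 (Nat.mod_lt _ (by omega))), sub_self,
      mul_zero]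
  rw [Finset.sum_congr rfl h1, Finset.sum_const_zero, zero_div]

theorem Zf_mod (J : ℕ) (φ : (Fin J → ℤ) → ℝ) (L p q : ℕ) (hq : p ∣ q) (x : ℕ → ℤ) (r : ℕ) : Zf J φ L p x (r % q) = Zf J φ L p x r := by
  unfold Zf
  congr 1
  refine Finset.sum_congr rfl fun i _ => ?_
  have h1 : p ∣ r % q + i ↔ p ∣ r + i := by
    conv_rhs => rw [← Nat.div_add_mod r q]
    rw [show q * (r / q) + r % q + i = q * (r / q) + (r % q + i) by ring]
    exact (Nat.dvd_add_right (hq.trans (Dvd.intro _ rfl))).symm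
  rw [if_congr h1 rfl rfl]

/-- only `x_i` with `i < L + p (J - 1) ≤ K` matter -/
theorem Zf_congr (J : ℕ) (φ : (Fin J → ℤ) → ℝ) (L p K : ℕ) (hK : L + p * (J - 1) ≤ K) (x y : ℕ → ℤ) (h : ∀ i < K, x i = y i) (r : ℕ) : Zf J φ L p x r = Zf J φ L p y r := by
  unfold Zf
  congr 1
  refine Finset.sum_congr rfl fun i hi => ?_
  have h1 : (fun j : Fin J => x (i + p * j)) = fun j : Fin J => y (i + p * j) := by
    funext j
    apply h
    have h2 : p * (j : ℕ) ≤ p * (J - 1) := Nat.mul_le_mul_left p (by have := j.2; omega)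
    have h3 := Finset.mem_range.1 hi
    omega
  rw [h1]

end Pool.Agent.Lib.MP_3e612f_nt.ZE
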